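import Mathlib

/-!
Rounds of additions, multiplications and divisions; quotients of sums of products of monomials and
units; minimal representations.
-/

set_option autoImplicit false

namespace Pool.Agent.W2helper42.CX

open Finset

/-- The elements which are obtained from those of `B` by at most `m` rounds of additions,
multiplications and divisions. -/
def Cx {E : Type*} [Add E] [Mul E] [Div E] (B : Set E) : ℕ → Set E
  | 0 => B
  | m + 1 => {z | z ∈ Cx B m ∨ ∃ x ∈ Cx B m, ∃ y ∈ Cx B m, z = x + y ∨ z = x * y ∨ z = x / y}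

section rep

variable {E : Type*} [Field E] {m : ℕ}

/-- zero, or a monomial of degree at most `D` in the `a i` -/
def Mn (a : Fin m → E) (D : ℕ) (α : E) : Prop :=
  α = 0 ∨ ∃ e : Fin m → ℕ, ∑ i, e i ≤ D ∧ α = ∏ i, a i ^ e i

/-- sums of `M` products of a monomial and a unit -/
def SumU (a : Fin m → E) (W : Set E) (M D : ℕ) : Set E :=
  {p | ∃ α u : Fin M → E, (∀ j, Mn a D (α j)) ∧ (∀ j, u j ∈ W) ∧ p = ∑ j, α j * u j}

theorem Mn.mono {a : Fin m → E} {D D' : ℕ} (h : D ≤ D') {α : E} (hα : Mn a D α) : Mn a D' α := by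
  rcases hα with h1 | ⟨e, h1, h2⟩
  · exact Or.inl h1
  · exact Or.inr ⟨e, h1.trans h, h2⟩

theorem Mn.mul {a : Fin m → E} {D D' : ℕ} {α β : E} (hα : Mn a D α) (hβ : Mn a D' β) :
    Mn a (D + D') (α * β) := by
  rcases hα with h1 | ⟨e, h1, h2⟩
  · exact Or.inl (by rw [h1, zero_mul])
  rcases hβ with h3 | ⟨e', h3, h4⟩
  · exact Or.inl (by rw [h3, mul_zero])
  refine Or.inr ⟨fun i => e i + e' i, ?_, ?_⟩
  · rw [sum_add_distrib]
    omega
  · rw [h2, h4, ← prod_mul_distrib]
    exact prod_congr rfl fun i _ => (pow_add _ _ _).symm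

variable {a : Fin m → E} {W : Set E}

theorem SumU.add {M M' D : ℕ} {p q : E} (hp : p ∈ SumU a W M D) (hq : q ∈ SumU a W M' D) :
    p + q ∈ SumU a W (M + M') D := by
  obtain ⟨α, u, h1, h2, h3⟩ := hp
  obtain ⟨α', u', h4, h5, h6⟩ := hq
  refine ⟨Fin.append α α', Fin.append u u', fun j => ?_, fun j => ?_, ?_⟩
  · refine Fin.addCases (fun i => ?_) (fun i => ?_) j
    · rw [Fin.append_left]
      exact h1 i
    · rw [Fin.append_right]
      exact h4 i
  · refine Fin.addCases (fun i => ?_) (fun i => ?_) j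
    · rw [Fin.append_left]
      exact h2 i
    · rw [Fin.append_right]
      exact h5 i
  · rw [Fin.sum_univ_add]
    simp only [Fin.append_left, Fin.append_right]
    rw [h3, h6]

theorem SumU.zero (hW1 : (1 : E) ∈ W) (M D : ℕ) : (0 : E) ∈ SumU a W M D :=
  ⟨fun _ => 0, fun _ => 1, fun _ => Or.inl rfl, fun _ => hW1, by simp⟩

theorem SumU.mono (hW1 : (1 : E) ∈ W) {M M' D D' : ℕ} (hM : M ≤ M') (hD : D ≤ D') {p : E}
    (hp : p ∈ SumU a W M D) : p ∈ SumU a W M' D' := by
  obtain ⟨k, rfl⟩ := Nat.exists_eq_add_of_le hM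
  have h1 : p ∈ SumU a W M D' := by
    obtain ⟨α, u, h1, h2, h3⟩ := hp
    exact ⟨α, u, fun j => (h1 j).mono hD, h2, h3⟩
  have h2 := SumU.add h1 (SumU.zero (a := a) hW1 k D')
  rwa [add_zero] at h2

theorem SumU.mul (hWm : ∀ u ∈ W, ∀ w ∈ W, u * w ∈ W) {M M' D D' : ℕ} {p q : E}
    (hp : p ∈ SumU a W M D) (hq : q ∈ SumU a W M' D') : p * q ∈ SumU a W (M * M') (D + D') := by
  obtain ⟨α, u, h1, h2, h3⟩ := hp
  obtain ⟨α', u', h4, h5, h6⟩ := hq
  refine ⟨fun j => α (finProdFinEquiv.symm j).1 * α' (finProdFinEquiv.symm j).2,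
    fun j => u (finProdFinEquiv.symm j).1 * u' (finProdFinEquiv.symm j).2,
    fun j => (h1 _).mul (h4 _), fun j => hWm _ (h2 _) _ (h5 _), ?_⟩
  rw [h3, h6, sum_mul_sum, ← sum_product', univ_product_univ, ← finProdFinEquiv.symm.sum_comp]
  refine sum_congr rfl fun j _ => ?_
  ring

theorem SumU.one (hW1 : (1 : E) ∈ W) : (1 : E) ∈ SumU a W 1 1 :=
  ⟨fun _ => 1, fun _ => 1, fun _ => Or.inr ⟨fun _ => 0, by simp, by simp⟩, fun _ => hW1, by simp⟩

/-- the number of terms -/
def Mf : ℕ → ℕ
  | 0 => 1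
  | m + 1 => 2 * (Mf m * Mf m)

/-- the degrees -/
def Df : ℕ → ℕ
  | 0 => 1
  | m + 1 => Df m + Df m

theorem one_le_Mf (m : ℕ) : 1 ≤ Mf m := by
  induction m with
  | zero => exact le_refl 1
  | succ m ih =>
    show 1 ≤ 2 * (Mf m * Mf m)
    nlinarith

theorem one_le_Df (m : ℕ) : 1 ≤ Df m := by
  induction m with
  | zero => exact le_refl 1
  | succ m ih =>
    show 1 ≤ Df m + Df m
    omega

theorem rep (hW1 : (1 : E) ∈ W) (hWm : ∀ u ∈ W, ∀ w ∈ W, u * w ∈ W) (k : ℕ) :
    ∀ z ∈ Cx (Set.range a ∪ W) k, ∃ p ∈ SumU a W (Mf k) (Df k), ∃ q ∈ SumU a W (Mf k) (Df k),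
      q ≠ 0 ∧ z * q = p := by
  classical
  induction k with
  | zero =>
    rintro z (⟨i, rfl⟩ | hz)
    · refine ⟨a i, ⟨fun _ => a i, fun _ => 1, fun _ => Or.inr ⟨Pi.single i 1, ?_, ?_⟩,
        fun _ => hW1, ?_⟩, 1, SumU.one hW1, one_ne_zero, mul_one _⟩
      · rw [sum_pi_single']
        simp [Df]
      · rw [prod_eq_single i]
        · rw [Pi.single_eq_same, pow_one]
        · intro j _ hj
          rw [Pi.single_eq_of_ne hj, pow_zero]
        · intro h
          exact absurd (mem_univ i) h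
      · show a i = ∑ _j : Fin 1, a i * 1
        simp
    · refine ⟨z, ⟨fun _ => 1, fun _ => z, fun _ => Or.inr ⟨fun _ => 0, by simp, by simp⟩,
        fun _ => hz, ?_⟩, 1, SumU.one hW1, one_ne_zero, mul_one _⟩
      show z = ∑ _j : Fin 1, 1 * z
      simp
  | succ k ih =>
    have hM := one_le_Mf k
    have hD := one_le_Df k
    have e1 : Mf k ≤ Mf (k + 1) := by
      show Mf k ≤ 2 * (Mf k * Mf k)
      nlinarith
    have e2 : Mf k * Mf k ≤ Mf (k + 1) := by
      show Mf k * Mf k ≤ 2 * (Mf k * Mf k)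
      omega
    have e3 : Df k ≤ Df (k + 1) := by
      show Df k ≤ Df k + Df k
      omega
    have e4 : Df k + Df k ≤ Df (k + 1) := le_refl _
    have e5 : Mf k * Mf k + Mf k * Mf k ≤ Mf (k + 1) := by
      show Mf k * Mf k + Mf k * Mf k ≤ 2 * (Mf k * Mf k)
      omega
    rintro z (hz | ⟨x, hx, y, hy, hz⟩)
    · obtain ⟨p, hp, q, hq, h1, h2⟩ := ih z hz
      exact ⟨p, SumU.mono hW1 e1 e3 hp, q, SumU.mono hW1 e1 e3 hq, h1, h2⟩
    · obtain ⟨p, hp, q, hq, h1, h2⟩ := ih x hx
      obtain ⟨p', hp', q', hq', h1', h2'⟩ := ih y hy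
      rcases hz with rfl | rfl | rfl
      · refine ⟨p * q' + p' * q, SumU.mono hW1 e5 e4 (SumU.add (SumU.mul hWm hp hq')
          (SumU.mul hWm hp' hq)), q * q', SumU.mono hW1 e2 e4 (SumU.mul hWm hq hq'),
          mul_ne_zero h1 h1', ?_⟩
        rw [← h2, ← h2']
        ring
      · refine ⟨p * p', SumU.mono hW1 e2 e4 (SumU.mul hWm hp hp'), q * q',
          SumU.mono hW1 e2 e4 (SumU.mul hWm hq hq'), mul_ne_zero h1 h1', ?_⟩
        rw [← h2, ← h2']
        ring
      · by_cases hp0 : p' = 0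
        · have hy0 : y = 0 := by
            rw [hp0] at h2'
            exact (mul_eq_zero.1 h2').resolve_right h1'
          refine ⟨0, SumU.zero hW1 _ _, 1, SumU.mono hW1 (one_le_Mf _) (one_le_Df _)
            (SumU.one hW1), one_ne_zero, ?_⟩
          rw [hy0, div_zero, zero_mul]
        · have hy0 : y ≠ 0 := by
            rintro rfl
            exact hp0 (by rw [← h2', zero_mul])
          refine ⟨p * q', SumU.mono hW1 e2 e4 (SumU.mul hWm hp hq'), q * p',
            SumU.mono hW1 e2 e4 (SumU.mul hWm hq hp'), mul_ne_zero h1 hp0, ?_⟩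
          rw [← h2, ← h2']
          field_simp

end rep

section minimal

variable {E : Type*} [Field E]

/-- the slots for the terms -/
abbrev Slot (n M : ℕ) : Type := Fin n × Bool × Fin M

variable {n M : ℕ}

/-- the terms of the equation `x c * q = p` -/
def tm (x : Fin n → E) (α u : Slot n M → E) (t : Slot n M) : E :=
  (if t.2.1 = true then x t.1 else -1) * (α t * u t)

/-- the slots of a coordinate -/
def slots (T : Finset (Slot n M)) (c : Fin n) : Finset (Slot n M) := T.filter fun t => t.1 = c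

/-- the slots of the denominator -/
def qslots (T : Finset (Slot n M)) (c : Fin n) : Finset (Slot n M) :=
  (slots T c).filter fun t => t.2.1 = true

theorem mem_slots {T : Finset (Slot n M)} {c : Fin n} {t : Slot n M} :
    t ∈ slots T c ↔ t ∈ T ∧ t.1 = c := mem_filter

/-- `T` gives a representation of `x` -/
def IsRep (x : Fin n → E) (α u : Slot n M → E) (T : Finset (Slot n M)) : Prop :=
  ∀ c, ∑ t ∈ slots T c, tm x α u t = 0 ∧ ∑ t ∈ qslots T c, α t * u t ≠ 0

theorem slots_sdiff_same (T : Finset (Slot n M)) (c : Fin n) {J : Finset (Slot n M)} :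
    slots (T \ J) c = slots T c \ J := by
  ext t
  simp only [mem_slots, mem_sdiff]
  tauto

theorem slots_sdiff_other (T : Finset (Slot n M)) {c c' : Fin n} (h : c' ≠ c)
    {J : Finset (Slot n M)} (hJ : J ⊆ slots T c) : slots (T \ J) c' = slots T c' := by
  rw [slots_sdiff_same, Finset.sdiff_eq_self_iff_disjoint, disjoint_left]
  intro t ht hJt
  exact h ((mem_slots.1 ht).2.symm.trans (mem_slots.1 (hJ hJt)).2)

/-- terms which cancel can be removed -/
theorem IsRep.remove {x : Fin n → E} {α u : Slot n M → E} {T : Finset (Slot n M)}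
    (h : IsRep x α u T) {c : Fin n} {J : Finset (Slot n M)} (hJ : J ⊆ slots T c)
    (h1 : ∑ t ∈ J, tm x α u t = 0)
    (h2 : ∑ t ∈ (slots T c \ J).filter (fun t => t.2.1 = true), α t * u t ≠ 0) :
    IsRep x α u (T \ J) := by
  intro c'
  by_cases hc : c' = c
  · subst hc
    unfold qslots
    rw [slots_sdiff_same]
    refine ⟨?_, h2⟩
    have h3 := sum_sdiff hJ (f := tm x α u)
    rw [h1, (h c').1, add_zero] at h3
    exact h3
  · unfold qslots
    rw [slots_sdiff_other T hc hJ]
    exact h c'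

/-- a minimal representation has no partial relations -/
theorem exists_minimal {x : Fin n → E} {α u : Slot n M → E} (h : IsRep x α u univ) :
    ∃ T : Finset (Slot n M), IsRep x α u T ∧ ∀ c, ∀ J ⊆ slots T c, J.Nonempty →
      J ≠ slots T c → ∑ t ∈ J, tm x α u t ≠ 0 := by
  classical
  obtain ⟨T, hT, hmin⟩ := exists_min_image (univ.filter fun T : Finset (Slot n M) =>
    IsRep x α u T) card ⟨univ, mem_filter.2 ⟨mem_univ _, h⟩⟩
  have hT' := (mem_filter.1 hT).2
  refine ⟨T, hT', fun c J hJ hJne hJ2 h0 => ?_⟩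
  have hsub : slots T c ⊆ T := filter_subset _ _
  have key : ∀ J' ⊆ slots T c, J'.Nonempty → IsRep x α u (T \ J') → False := by
    intro J' hJ' hne hrep
    have h1 := hmin (T \ J') (mem_filter.2 ⟨mem_univ _, hrep⟩)
    have h2 : (T \ J').card < T.card := by
      apply card_lt_card
      refine Finset.ssubset_iff_subset_ne.2 ⟨sdiff_subset, fun he => ?_⟩
      obtain ⟨t, ht⟩ := hne
      have h3 : t ∈ T := hsub (hJ' ht)
      rw [← he] at h3
      exact (mem_sdiff.1 h3).2 ht
    omega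
  have hcomp : ∑ t ∈ slots T c \ J, tm x α u t = 0 := by
    have h3 := sum_sdiff hJ (f := tm x α u)
    rw [h0, (hT' c).1, add_zero] at h3
    exact h3
  by_cases hQ : ∑ t ∈ J.filter (fun t => t.2.1 = true), α t * u t = 0
  · refine key J hJ hJne (hT'.remove hJ h0 ?_)
    intro h4
    apply (hT' c).2
    unfold qslots
    have h5 : (slots T c \ J).filter (fun t => t.2.1 = true) =
        (slots T c).filter (fun t => t.2.1 = true) \ J.filter (fun t => t.2.1 = true) := by
      ext t
      simp only [mem_filter, mem_sdiff]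
      tauto
    have h6 := sum_sdiff (filter_subset_filter (fun t : Slot n M => t.2.1 = true) hJ)
      (f := fun t => α t * u t)
    rw [← h5, h4, hQ, add_zero] at h6
    exact h6.symm
  · refine key (slots T c \ J) sdiff_subset ?_ (hT'.remove sdiff_subset hcomp ?_)
    · rw [sdiff_nonempty]
      intro h4
      exact hJ2 (Subset.antisymm hJ h4)
    · rw [Finset.sdiff_sdiff_eq_self hJ]
      exact hQ

/-- **Normalised minimal representations.** -/
theorem exists_normal {m D : ℕ} {a : Fin m → E} {W : Set E} (hW0 : ∀ u ∈ W, u ≠ 0)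
    (hW1 : (1 : E) ∈ W) (hWd : ∀ u ∈ W, ∀ w ∈ W, u / w ∈ W) (x : Fin n → E)
    (hx : ∀ c, ∃ p ∈ SumU a W M D, ∃ q ∈ SumU a W M D, q ≠ 0 ∧ x c * q = p) :
    ∃ (T : Finset (Slot n M)) (τ : Fin n → Slot n M) (α u : Slot n M → E),
      (∀ t, Mn a D (α t)) ∧ (∀ t, u t ∈ W) ∧ (∀ t, t ∉ T → u t = 1) ∧
      (∀ c, τ c ∈ slots T c ∧ u (τ c) = 1) ∧ IsRep x α u T ∧
      ∀ c, ∀ J ⊆ slots T c, J.Nonempty → J ≠ slots T c → ∑ t ∈ J, tm x α u t ≠ 0 := by
  classical
  choose p hp q hq hq0 hpq using hx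
  choose αp up h1 h2 h3 using hp
  choose αq uq h4 h5 h6 using hq
  let α : Slot n M → E := fun t => if t.2.1 = true then αq t.1 t.2.2 else αp t.1 t.2.2
  let u : Slot n M → E := fun t => if t.2.1 = true then uq t.1 t.2.2 else up t.1 t.2.2
  have hα : ∀ t, Mn a D (α t) := by
    rintro ⟨c, b, j⟩
    cases b
    · exact h1 c j
    · exact h4 c j
  have hu : ∀ t, u t ∈ W := by
    rintro ⟨c, b, j⟩
    cases b
    · exact h2 c j
    · exact h5 c j
  have hsum : ∀ (c : Fin n) (g : Slot n M → E), ∑ t ∈ slots univ c, g t =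
      ∑ b : Bool, ∑ j : Fin M, g (c, b, j) := by
    intro c g
    unfold slots
    rw [sum_filter, Fintype.sum_prod_type, sum_eq_single c]
    · simp only [if_true]
      rw [Fintype.sum_prod_type]
    · intro c' _ hc'
      refine sum_eq_zero fun t _ => ?_
      rw [if_neg hc']
    · intro h
      exact absurd (mem_univ c) h
  have hrep : IsRep x α u univ := by
    intro c
    constructor
    · rw [hsum c (tm x α u), Fintype.sum_bool]
      have e1 : ∑ j : Fin M, tm x α u (c, true, j) = x c * q c := by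
        rw [h6, mul_sum]
        exact sum_congr rfl fun j _ => rfl
      have e2 : ∑ j : Fin M, tm x α u (c, false, j) = - p c := by
        rw [h3, ← sum_neg_distrib]
        refine sum_congr rfl fun j _ => ?_
        show (-1 : E) * (αp c j * up c j) = _
        ring
      rw [e1, e2, hpq]
      ring
    · have e1 : ∑ t ∈ qslots univ c, α t * u t = q c := by
        unfold qslots
        rw [sum_filter, hsum c (fun t => if t.2.1 = true then α t * u t else 0),
          Fintype.sum_bool, h6]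
        have e2 : ∑ j : Fin M, (if (c, false, j).2.1 = true then
            α (c, false, j) * u (c, false, j) else 0) = (0 : E) := by
          refine sum_eq_zero fun j _ => ?_
          rw [if_neg (by simp)]
        rw [e2, add_zero]
        exact sum_congr rfl fun j _ => rfl
      rw [e1]
      exact hq0 c
  obtain ⟨T, hT, hmin⟩ := exists_minimal hrep
  have hne : ∀ c, (slots T c).Nonempty := by
    intro c
    by_contra h
    rw [not_nonempty_iff_eq_empty] at h
    apply (hT c).2
    unfold qslots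
    rw [h, filter_empty, sum_empty]
  choose τ hτ using hne
  have hu0 : ∀ t, u t ≠ 0 := fun t => hW0 _ (hu t)
  let u' : Slot n M → E := fun t => if t ∈ T then u t / u (τ t.1) else 1
  have hu' : ∀ c, ∀ t ∈ slots T c, u' t = u t * (u (τ c))⁻¹ := by
    intro c t ht
    obtain ⟨h7, h8⟩ := mem_slots.1 ht
    show (if t ∈ T then u t / u (τ t.1) else 1) = _
    rw [if_pos h7, h8, div_eq_mul_inv]
  have htm : ∀ c, ∀ J ⊆ slots T c, ∑ t ∈ J, tm x α u' t =
      (∑ t ∈ J, tm x α u t) * (u (τ c))⁻¹ := by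
    intro c J hJ
    rw [sum_mul]
    refine sum_congr rfl fun t ht => ?_
    unfold tm
    rw [hu' c t (hJ ht)]
    ring
  refine ⟨T, τ, α, u', hα, fun t => ?_, fun t ht => if_neg ht, fun c => ⟨hτ c, ?_⟩, fun c =>
    ⟨?_, ?_⟩, fun c J hJ hJne hJ2 => ?_⟩
  · show (if t ∈ T then u t / u (τ t.1) else 1) ∈ W
    split_ifs
    · exact hWd _ (hu _) _ (hu _)
    · exact hW1
  · rw [hu' c _ (hτ c), mul_inv_cancel₀ (hu0 _)]
  · rw [htm c _ (Subset.refl _), (hT c).1, zero_mul]
  · have h7 : ∑ t ∈ qslots T c, α t * u' t = (∑ t ∈ qslots T c, α t * u t) * (u (τ c))⁻¹ := by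
      rw [sum_mul]
      refine sum_congr rfl fun t ht => ?_
      rw [hu' c t (filter_subset _ _ ht)]
      ring
    rw [h7]
    exact mul_ne_zero (hT c).2 (inv_ne_zero (hu0 _))
  · rw [htm c J hJ]
    exact mul_ne_zero (hmin c J hJ hJne hJ2) (inv_ne_zero (hu0 _))

end minimal

end Pool.Agent.W2helper42.CX
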