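import Mathlib
import Pool.Agent.W2helper42.RB.Dfs
import Pool.Agent.W2helper42.CX.Cx

/-!
Integral points and entire curves of bounded complexity.
-/

set_option autoImplicit false

namespace Pool.Agent.W2helper42.CX

open MvPolynomial IsDedekindDomain MeasureTheory Filter
open Pool.Agent.H159R3.Exp
open Pool.Agent.W2helper42.RB
open scoped NumberField

/-- the `S`-units -/
def SUnits {L : Type} [Field L] [NumberField L] (S : Set (HeightOneSpectrum (𝓞 L))) : Set L :=
  {u | u ≠ 0 ∧ u ∈ S.integer L ∧ u⁻¹ ∈ S.integer L}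

/-- the entire functions without zeros -/
def ZeroFree : Set (ℂ → ℂ) := {u | Differentiable ℂ u ∧ ∀ z, u z ≠ 0}

variable {K : Type} [Field K] {ι κ : Type} {n : ℕ}

/-- the bound for the integral points of bounded complexity -/
def ArithBound (F : ι → MvPolynomial (Fin n) (𝓞 K)) (G : κ → MvPolynomial (Fin n) (𝓞 K))
    (A : Finset (Fin n)) : Prop :=
  ∀ (L : Type) [Field L] [NumberField L] [Algebra K L] (S : Set (HeightOneSpectrum (𝓞 L))),
    S.Finite → ∀ m : ℕ, ∃ C : ℝ, ∀ a : Fin m → L, (∀ i, a i ∈ S.integer L) →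
      ∀ x ∈ intPoints F L S \ intPoints G L S, (∀ j, x j ∈ Cx (Set.range a ∪ SUnits S) m) →
        ∑ j, Height.logHeight₁ (x j) ≤
          C * (1 + ∑ i ∈ A, Height.logHeight₁ (x i) + ∑ i, Height.logHeight₁ (a i))

/-- the bound for the entire curves of bounded complexity -/
def CurveBound (σ : K →+* ℂ) (F : ι → MvPolynomial (Fin n) (𝓞 K))
    (G : κ → MvPolynomial (Fin n) (𝓞 K)) (A : Finset (Fin n)) : Prop :=
  ∀ (m : ℕ) (a : Fin m → ℂ → ℂ), (∀ i, Differentiable ℂ (a i)) →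
    ∀ f : ℂ → Fin n → ℂ, Differentiable ℂ f → (∀ z, f z ∈ CPts σ F) → (∃ z, f z ∉ CPts σ G) →
      (∀ j, ∃ g ∈ Cx (Set.range a ∪ ZeroFree) m, (fun z => f z j) =ᶠ[codiscrete ℂ] g) →
        ∃ (C : ℝ) (E : Set ℝ), volume E < ⊤ ∧ ∀ r, 1 ≤ r → r ∉ E →
          ∑ j, charFn (fun z => f z j) r ≤
            C * (1 + ∑ i ∈ A, charFn (fun z => f z i) r + ∑ i, charFn (a i) r)

/-- the finiteness of the integral points of bounded complexity over elements of bounded height -/
def ArithFinite (F : ι → MvPolynomial (Fin n) (𝓞 K)) (G : κ → MvPolynomial (Fin n) (𝓞 K)) : Prop :=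
  ∀ (L : Type) [Field L] [NumberField L] [Algebra K L] (S : Set (HeightOneSpectrum (𝓞 L))),
    S.Finite → ∀ (m : ℕ) (B : ℝ), {x ∈ intPoints F L S \ intPoints G L S |
      ∃ a : Fin m → L, (∀ i, a i ∈ S.integer L ∧ Height.logHeight₁ (a i) ≤ B) ∧
        ∀ j, x j ∈ Cx (Set.range a ∪ SUnits S) m}.Finite

/-- the nonconstant entire curves whose coordinates are obtained from entire functions without zeros
lie in `V'` -/
def UnitCurvesIn (σ : K →+* ℂ) (F : ι → MvPolynomial (Fin n) (𝓞 K))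
    (G : κ → MvPolynomial (Fin n) (𝓞 K)) : Prop :=
  ∀ f : ℂ → Fin n → ℂ, Differentiable ℂ f → (∀ z, f z ∈ CPts σ F) → (∃ z w, f z ≠ f w) →
    (∀ j, ∃ m, ∃ g ∈ Cx ZeroFree m, (fun z => f z j) =ᶠ[codiscrete ℂ] g) →
      ∀ z, f z ∈ CPts σ G

section cx

variable {E : Type*} [Add E] [Mul E] [Div E]

theorem Cx.mono {B : Set E} {m m' : ℕ} (h : m ≤ m') {z : E} (hz : z ∈ Cx B m) : z ∈ Cx B m' := by
  obtain ⟨k, rfl⟩ := Nat.exists_eq_add_of_le h
  induction k with
  | zero => exact hz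
  | succ k ih => exact Or.inl (ih (Nat.le_add_right _ _))

theorem Cx.sub {B B' : Set E} (h : B ⊆ B') {m : ℕ} {z : E} (hz : z ∈ Cx B m) : z ∈ Cx B' m := by
  induction m generalizing z with
  | zero => exact h hz
  | succ m ih =>
    rcases hz with hz | ⟨x, hx, y, hy, hz⟩
    · exact Or.inl (ih hz)
    · exact Or.inr ⟨x, ih hx, y, ih hy, hz⟩

end cx

theorem Cx.sum {E : Type*} [Field E] {B : Set E} (h1 : (1 : E) ∈ B) (h2 : (-1 : E) ∈ B)
    {κ : Type*} (s : Finset κ) (b : κ → E) (hb : ∀ i ∈ s, b i ∈ B) :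
    ∑ i ∈ s, b i ∈ Cx B (s.card + 1) := by
  classical
  induction s using Finset.induction_on with
  | empty => exact Or.inr ⟨1, h1, -1, h2, Or.inl (by simp)⟩
  | insert i s hi ih =>
    rw [Finset.sum_insert hi, Finset.card_insert_of_notMem hi]
    exact Or.inr ⟨b i, Cx.mono (Nat.zero_le _) (show b i ∈ Cx B 0 from
      hb i (Finset.mem_insert_self _ _)), _, ih fun j hj => hb j (Finset.mem_insert_of_mem hj),
      Or.inl rfl⟩

/-- sums of functions -/
theorem Cx.sum_fun {B : Set (ℂ → ℂ)} (h1 : (fun _ => (1 : ℂ)) ∈ B) (h2 : (fun _ => (-1 : ℂ)) ∈ B)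
    {κ : Type*} (s : Finset κ) (b : κ → ℂ → ℂ) (hb : ∀ i ∈ s, b i ∈ B) :
    (fun z => ∑ i ∈ s, b i z) ∈ Cx B (s.card + 1) := by
  classical
  induction s using Finset.induction_on with
  | empty =>
    refine Or.inr ⟨_, h1, _, h2, Or.inl ?_⟩
    funext z
    simp
  | insert i s hi ih =>
    rw [Finset.card_insert_of_notMem hi]
    refine Or.inr ⟨b i, Cx.mono (Nat.zero_le _) (show b i ∈ Cx B 0 from
      hb i (Finset.mem_insert_self _ _)), _, ih fun j hj => hb j (Finset.mem_insert_of_mem hj),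
      Or.inl ?_⟩
    funext z
    rw [Finset.sum_insert hi]
    rfl

section sunits

variable {L : Type} [Field L] [NumberField L] {S : Set (HeightOneSpectrum (𝓞 L))}

theorem SUnits.one : (1 : L) ∈ SUnits S := by
  refine ⟨one_ne_zero, (S.integer L).one_mem, ?_⟩
  rw [inv_one]
  exact (S.integer L).one_mem

theorem SUnits.neg_one : (-1 : L) ∈ SUnits S := by
  refine ⟨neg_ne_zero.2 one_ne_zero, (S.integer L).neg_mem (S.integer L).one_mem, ?_⟩
  rw [inv_neg, inv_one]
  exact (S.integer L).neg_mem (S.integer L).one_mem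

theorem SUnits.mul {u w : L} (hu : u ∈ SUnits S) (hw : w ∈ SUnits S) : u * w ∈ SUnits S := by
  refine ⟨mul_ne_zero hu.1 hw.1, (S.integer L).mul_mem hu.2.1 hw.2.1, ?_⟩
  rw [mul_inv]
  exact (S.integer L).mul_mem hu.2.2 hw.2.2

theorem SUnits.inv {u : L} (hu : u ∈ SUnits S) : u⁻¹ ∈ SUnits S := by
  refine ⟨inv_ne_zero hu.1, hu.2.2, ?_⟩
  rw [inv_inv]
  exact hu.2.1

theorem SUnits.div {u w : L} (hu : u ∈ SUnits S) (hw : w ∈ SUnits S) : u / w ∈ SUnits S := by
  rw [div_eq_mul_inv]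
  exact SUnits.mul hu (SUnits.inv hw)

theorem SUnits.zpow {u : L} (hu : u ∈ SUnits S) (k : ℤ) : u ^ k ∈ SUnits S := by
  have h1 : ∀ k : ℕ, u ^ k ∈ SUnits S := by
    intro k
    induction k with
    | zero =>
      rw [pow_zero]
      exact SUnits.one
    | succ k ih =>
      rw [pow_succ]
      exact SUnits.mul ih hu
  obtain ⟨k, rfl | rfl⟩ := k.eq_nat_or_neg
  · rw [zpow_natCast]
    exact h1 k
  · rw [zpow_neg, zpow_natCast]
    exact SUnits.inv (h1 k)

/-- finitely many elements are units outside a finite set of places -/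
theorem exists_places (X : Finset L) : ∃ S : Set (HeightOneSpectrum (𝓞 L)), S.Finite ∧
    ∀ S', S ⊆ S' → ∀ x ∈ X, x ≠ 0 → x ∈ SUnits (L := L) S' := by
  classical
  refine ⟨⋃ x ∈ X, (HeightOneSpectrum.Support (𝓞 L) x ∪ HeightOneSpectrum.Support (𝓞 L) x⁻¹),
    Set.Finite.biUnion (Finset.finite_toSet _) fun x _ =>
      (HeightOneSpectrum.Support.finite _ _).union (HeightOneSpectrum.Support.finite _ _), ?_⟩
  intro S' hS' x hx hx0
  have hmem : ∀ y : L, HeightOneSpectrum.Support (𝓞 L) y ⊆ S' → y ∈ S'.integer L := by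
    intro y hy v hv
    by_contra hcon
    exact hv (hy (not_le.mp hcon))
  exact ⟨hx0, hmem _ fun v hv => hS' (Set.mem_biUnion hx (Or.inl hv)),
    hmem _ fun v hv => hS' (Set.mem_biUnion hx (Or.inr hv))⟩

theorem integer_mono {S S' : Set (HeightOneSpectrum (𝓞 L))} (h : S ⊆ S') {x : L}
    (hx : x ∈ S.integer L) : x ∈ S'.integer L := fun v hv => hx v fun h1 => hv (h h1)

end sunits

end Pool.Agent.W2helper42.CX
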