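import Mathlib
import Pool.Agent.W2helper42.RB.Dfs
import Pool.Agent.W2helper42.CX.Cx

/-!
The variety of the points together with representations of their coordinates.
-/

set_option autoImplicit false

namespace Pool.Agent.W2helper42.CX

open Finset MvPolynomial
open Pool.Agent.H159R3.Exp
open Pool.Agent.W2helper42.RB
open scoped NumberField

/-- Laurent polynomials without zeros are monomials. -/
theorem laur_unit {L : Type} [Field L] [CharZero L] {φ ψ : L → L} (hφ : Laur φ) (hψ : Laur ψ)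
    (h : ∀ t, t ≠ 0 → φ t * ψ t = 1) : ∃ l : ℤ, ∀ t, t ≠ 0 → φ t = φ 1 * t ^ l := by
  obtain ⟨M1, Q1, h1⟩ := hφ
  obtain ⟨M2, Q2, h2⟩ := hψ
  have h3 : Q1 * Q2 = Polynomial.X ^ (M1 + M2) := by
    refine Polynomial.eq_of_infinite_eval_eq _ _ ?_
    refine Set.Infinite.mono ?_ (Set.Infinite.sdiff (Set.infinite_univ (α := L))
      (Set.finite_singleton (0 : L)))
    rintro t ⟨-, ht⟩
    have ht0 : t ≠ 0 := ht
    change (Q1 * Q2).eval t = (Polynomial.X ^ (M1 + M2)).eval t
    rw [Polynomial.eval_mul, ← h1 t ht0, ← h2 t ht0, Polynomial.eval_pow, Polynomial.eval_X,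
      pow_add]
    linear_combination t ^ M1 * t ^ M2 * h t ht0
  have h4 : Q1 ∣ Polynomial.X ^ (M1 + M2) := ⟨Q2, h3.symm⟩
  obtain ⟨m, -, hm⟩ := (dvd_prime_pow Polynomial.prime_X _).1 h4
  obtain ⟨u, hu⟩ := hm.symm
  obtain ⟨c, hc, hcu⟩ := Polynomial.isUnit_iff.1 u.isUnit
  have h5 : ∀ t, t ≠ 0 → φ t * t ^ M1 = c * t ^ m := by
    intro t ht
    rw [h1 t ht, ← hu, ← hcu, Polynomial.eval_mul, Polynomial.eval_pow, Polynomial.eval_X,
      Polynomial.eval_C, mul_comm]
  have h6 : φ 1 = c := by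
    have := h5 1 one_ne_zero
    simpa using this
  refine ⟨(m : ℤ) - M1, fun t ht => ?_⟩
  have h7 := h5 t ht
  rw [h6, zpow_sub₀ ht, zpow_natCast, zpow_natCast, ← mul_div_assoc,
    eq_div_iff (pow_ne_zero _ ht)]
  exact h7

/-- the constant coefficient of a sum of monomials that vanishes -/
theorem const_coeff {κ : Type*} (S : Finset κ) (b : κ → ℂ) (l : κ → ℤ)
    (h : ∀ s : ℂ, s ≠ 0 → ∑ t ∈ S, b t * s ^ l t = 0) :
    ∑ t ∈ S.filter (fun t => l t = 0), b t = 0 := by
  classical
  let K : ℕ := ∑ t ∈ S, (l t).natAbs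
  have hK : ∀ t ∈ S, 0 ≤ l t + K := by
    intro t ht
    have h1 : (l t).natAbs ≤ K := single_le_sum (f := fun t => (l t).natAbs)
      (fun _ _ => Nat.zero_le _) ht
    omega
  let P : Polynomial ℂ := ∑ t ∈ S, Polynomial.C (b t) * Polynomial.X ^ (l t + K).toNat
  have hP : P = 0 := by
    refine Polynomial.eq_of_infinite_eval_eq _ _ ?_
    refine Set.Infinite.mono ?_ (Set.Infinite.sdiff (Set.infinite_univ (α := ℂ))
      (Set.finite_singleton (0 : ℂ)))
    rintro s ⟨-, hs⟩
    have hs0 : s ≠ 0 := hs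
    show P.eval s = Polynomial.eval s 0
    rw [Polynomial.eval_zero, Polynomial.eval_finsetSum]
    have h1 : ∀ t ∈ S, (Polynomial.C (b t) * Polynomial.X ^ (l t + K).toNat).eval s =
        s ^ K * (b t * s ^ l t) := by
      intro t ht
      rw [Polynomial.eval_mul, Polynomial.eval_C, Polynomial.eval_pow, Polynomial.eval_X,
        ← zpow_natCast, Int.toNat_of_nonneg (hK t ht), zpow_add₀ hs0, zpow_natCast]
      ring
    rw [sum_congr rfl h1, ← mul_sum, h s hs0, mul_zero]
  have h2 := congrArg (fun Q => Polynomial.coeff Q K) hP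
  simp only [P, Polynomial.finsetSum_coeff, Polynomial.coeff_C_mul, Polynomial.coeff_X_pow,
    Polynomial.coeff_zero] at h2
  rw [sum_filter]
  refine Eq.trans (sum_congr rfl fun t ht => ?_) h2
  have h3 := hK t ht
  by_cases h4 : l t = 0
  · rw [if_pos h4, if_pos (by omega), mul_one]
  · rw [if_neg h4, if_neg (by omega), mul_zero]

section var

variable (n M : ℕ)

/-- the coordinates: `x`, and the coefficients, units and inverse units of the slots -/
abbrev Idx : Type := Fin n ⊕ (Fin 3 × Slot n M)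

/-- the number of coordinates -/
abbrev NN : ℕ := Fintype.card (Idx n M)

/-- the numbering of the coordinates -/
noncomputable def ee : Idx n M ≃ Fin (NN n M) := Fintype.equivFin _

variable {n M}

/-- coordinates of a point -/
noncomputable def px {E : Type*} (z : Fin (NN n M) → E) (c : Fin n) : E := z (ee n M (Sum.inl c))

/-- coordinates of a point -/
noncomputable def pα {E : Type*} (z : Fin (NN n M) → E) (t : Slot n M) : E := z (ee n M (Sum.inr (0, t)))

/-- coordinates of a point -/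
noncomputable def pu {E : Type*} (z : Fin (NN n M) → E) (t : Slot n M) : E := z (ee n M (Sum.inr (1, t)))

/-- coordinates of a point -/
noncomputable def pv {E : Type*} (z : Fin (NN n M) → E) (t : Slot n M) : E := z (ee n M (Sum.inr (2, t)))

/-- the point with given coordinates -/
noncomputable def mk {E : Type*} (x : Fin n → E) (α u v : Slot n M → E) : Fin (NN n M) → E :=
  fun i => Sum.elim x (fun p => (![α, u, v] : Fin 3 → Slot n M → E) p.1 p.2) ((ee n M).symm i)

section mk

variable {E : Type*} (x : Fin n → E) (α u v : Slot n M → E)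

@[simp] theorem px_mk : px (mk x α u v) = x := by
  funext c
  simp [px, mk]

@[simp] theorem pα_mk : pα (mk x α u v) = α := by
  funext c
  simp [pα, mk]

@[simp] theorem pu_mk : pu (mk x α u v) = u := by
  funext c
  simp [pu, mk]

@[simp] theorem pv_mk : pv (mk x α u v) = v := by
  funext c
  simp [pv, mk]

end mk

theorem ext_pt {E : Type*} {z z' : Fin (NN n M) → E} (h1 : px z = px z') (h2 : pα z = pα z')
    (h3 : pu z = pu z') (h4 : pv z = pv z') : z = z' := by
  funext i
  obtain ⟨j, rfl⟩ := (ee n M).surjective i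
  rcases j with c | ⟨k, t⟩
  · exact congrFun h1 c
  · fin_cases k
    · exact congrFun h2 t
    · exact congrFun h3 t
    · exact congrFun h4 t

/-- a property of all coordinates -/
theorem forall_coord {E : Type*} {z : Fin (NN n M) → E} {P : E → Prop} (h1 : ∀ c, P (px z c))
    (h2 : ∀ t, P (pα z t)) (h3 : ∀ t, P (pu z t)) (h4 : ∀ t, P (pv z t)) : ∀ i, P (z i) := by
  intro i
  obtain ⟨j, rfl⟩ := (ee n M).surjective i
  rcases j with c | ⟨k, t⟩
  · exact h1 c
  · fin_cases k
    · exact h2 t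
    · exact h3 t
    · exact h4 t

section polys

variable (k : Type) [CommRing k]

/-- the terms -/
noncomputable def tmP (t : Slot n M) : MvPolynomial (Fin (NN n M)) k :=
  (if t.2.1 = true then X (ee n M (Sum.inl t.1)) else -1) *
    (X (ee n M (Sum.inr (0, t))) * X (ee n M (Sum.inr (1, t))))

/-- the denominator -/
noncomputable def denP (T : Finset (Slot n M)) (c : Fin n) : MvPolynomial (Fin (NN n M)) k :=
  ∑ t ∈ qslots T c, X (ee n M (Sum.inr (0, t))) * X (ee n M (Sum.inr (1, t)))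

/-- the proper parts of the relation of a coordinate -/
def parts (T : Finset (Slot n M)) (c : Fin n) : Finset (Finset (Slot n M)) :=
  (slots T c).powerset.filter fun J => J.Nonempty ∧ J ≠ slots T c

/-- the product of the denominators and of the proper parts of the relations -/
noncomputable def badP (T : Finset (Slot n M)) : MvPolynomial (Fin (NN n M)) k :=
  (∏ c, denP k T c) * ∏ c, ∏ J ∈ parts T c, ∑ t ∈ J, tmP k t

variable {k} {ι κ : Type}

/-- the equations -/
noncomputable def FF (F : ι → MvPolynomial (Fin n) k) (T : Finset (Slot n M))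
    (τ : Fin n → Slot n M) : ι ⊕ (Fin n ⊕ (Slot n M ⊕ Slot n M)) → MvPolynomial (Fin (NN n M)) k
  | Sum.inl l => rename (fun c => ee n M (Sum.inl c)) (F l)
  | Sum.inr (Sum.inl c) => ∑ t ∈ slots T c, tmP k t
  | Sum.inr (Sum.inr (Sum.inl t)) =>
    X (ee n M (Sum.inr (1, t))) * X (ee n M (Sum.inr (2, t))) - 1
  | Sum.inr (Sum.inr (Sum.inr t)) =>
    if t ∉ T ∨ t = τ t.1 then X (ee n M (Sum.inr (1, t))) - 1 else 0

/-- the exceptional set -/
noncomputable def GG (G : κ → MvPolynomial (Fin n) k) (T : Finset (Slot n M)) :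
    κ → MvPolynomial (Fin (NN n M)) k :=
  fun l => rename (fun c => ee n M (Sum.inl c)) (G l) * badP k T

variable {E : Type} [Field E] (φ : k →+* E) (z : Fin (NN n M) → E)

theorem eval_tmP (t : Slot n M) : eval₂ φ z (tmP k t) = tm (px z) (pα z) (pu z) t := by
  unfold tmP tm
  rw [eval₂_mul, eval₂_mul, eval₂_X, eval₂_X]
  by_cases h : t.2.1 = true
  · rw [if_pos h, if_pos h, eval₂_X]
    rfl
  · rw [if_neg h, if_neg h, eval₂_neg, eval₂_one]
    rfl

theorem eval_sum_tmP (J : Finset (Slot n M)) :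
    eval₂ φ z (∑ t ∈ J, tmP k t) = ∑ t ∈ J, tm (px z) (pα z) (pu z) t := by
  rw [eval₂_sum]
  exact sum_congr rfl fun t _ => eval_tmP φ z t

theorem eval_denP (T : Finset (Slot n M)) (c : Fin n) :
    eval₂ φ z (denP k T c) = ∑ t ∈ qslots T c, pα z t * pu z t := by
  unfold denP
  rw [eval₂_sum]
  refine sum_congr rfl fun t _ => ?_
  rw [eval₂_mul, eval₂_X, eval₂_X]
  rfl

theorem eval_ren (P : MvPolynomial (Fin n) k) :
    eval₂ φ z (rename (fun c => ee n M (Sum.inl c)) P) = eval₂ φ (px z) P := by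
  rw [eval₂_rename]
  rfl

/-- no part of a relation, and no denominator, vanishes -/
def Good {E : Type*} [Field E] (T : Finset (Slot n M)) (x : Fin n → E) (α u : Slot n M → E) :
    Prop :=
  (∀ c, ∑ t ∈ qslots T c, α t * u t ≠ 0) ∧
    ∀ c, ∀ J ⊆ slots T c, J.Nonempty → J ≠ slots T c → ∑ t ∈ J, tm x α u t ≠ 0

theorem eval_badP (T : Finset (Slot n M)) :
    eval₂ φ z (badP k T) ≠ 0 ↔ Good T (px z) (pα z) (pu z) := by
  unfold badP Good
  rw [eval₂_mul, eval₂_prod, eval₂_prod, mul_ne_zero_iff, prod_ne_zero_iff,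
    prod_ne_zero_iff]
  refine and_congr ?_ ?_
  · simp only [mem_univ, true_implies, eval_denP]
  · simp only [mem_univ, true_implies, eval₂_prod, prod_ne_zero_iff, eval_sum_tmP, parts,
      mem_filter, mem_powerset]
    exact ⟨fun h c J h1 h2 h3 => h c J ⟨h1, h2, h3⟩, fun h c J h1 => h c J h1.1 h1.2.1 h1.2.2⟩

theorem eval_FF (F : ι → MvPolynomial (Fin n) k) (T : Finset (Slot n M)) (τ : Fin n → Slot n M) :
    (∀ l, eval₂ φ z (FF F T τ l) = 0) ↔ (∀ l, eval₂ φ (px z) (F l) = 0) ∧
      (∀ c, ∑ t ∈ slots T c, tm (px z) (pα z) (pu z) t = 0) ∧ (∀ t, pu z t * pv z t = 1) ∧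
      ∀ t, (t ∉ T ∨ t = τ t.1) → pu z t = 1 := by
  constructor
  · intro h
    refine ⟨fun l => ?_, fun c => ?_, fun t => ?_, fun t ht => ?_⟩
    · have h1 := h (Sum.inl l)
      rw [FF, eval_ren] at h1
      exact h1
    · have h1 := h (Sum.inr (Sum.inl c))
      rw [FF, eval_sum_tmP] at h1
      exact h1
    · have h1 := h (Sum.inr (Sum.inr (Sum.inl t)))
      rw [FF, eval₂_sub, eval₂_mul, eval₂_X, eval₂_X, eval₂_one] at h1
      exact sub_eq_zero.1 h1
    · have h1 := h (Sum.inr (Sum.inr (Sum.inr t)))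
      rw [FF, if_pos ht, eval₂_sub, eval₂_X, eval₂_one] at h1
      exact sub_eq_zero.1 h1
  · rintro ⟨h1, h2, h3, h4⟩ (l | c | t | t)
    · rw [FF, eval_ren]
      exact h1 l
    · rw [FF, eval_sum_tmP]
      exact h2 c
    · rw [FF, eval₂_sub, eval₂_mul, eval₂_X, eval₂_X, eval₂_one]
      exact sub_eq_zero.2 (h3 t)
    · rw [FF]
      split_ifs with ht
      · rw [eval₂_sub, eval₂_X, eval₂_one]
        exact sub_eq_zero.2 (h4 t ht)
      · exact eval₂_zero _ _

theorem eval_GG (G : κ → MvPolynomial (Fin n) k) (T : Finset (Slot n M)) :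
    (∀ l, eval₂ φ z (GG G T l) = 0) ↔
      (∀ l, eval₂ φ (px z) (G l) = 0) ∨ ¬ Good T (px z) (pα z) (pu z) := by
  constructor
  · intro h
    by_cases hb : Good T (px z) (pα z) (pu z)
    · left
      intro l
      have h1 := h l
      rw [GG, eval₂_mul, eval_ren] at h1
      exact (mul_eq_zero.1 h1).resolve_right ((eval_badP φ z T).2 hb)
    · exact Or.inr hb
  · rintro (h | h) l
    · rw [GG, eval₂_mul, eval_ren, h l, zero_mul]
    · have h1 : eval₂ φ z (badP k T) = 0 := by
        by_contra h2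
        exact h ((eval_badP φ z T).1 h2)
      rw [GG, eval₂_mul, h1, mul_zero]

end polys

/-- the coordinates of the base and the coefficients -/
noncomputable def AA (A : Finset (Fin n)) : Finset (Fin (NN n M)) :=
  A.image (fun c => ee n M (Sum.inl c)) ∪ univ.image fun t => ee n M (Sum.inr (0, t))

/-- the units -/
noncomputable def UU : Finset (Fin (NN n M)) := univ.image fun t => ee n M (Sum.inr (1, t))

theorem mem_AA_x {A : Finset (Fin n)} {c : Fin n} (h : c ∈ A) :
    ee n M (Sum.inl c) ∈ AA (M := M) A :=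
  mem_union_left _ (mem_image_of_mem _ h)

theorem mem_AA_α (A : Finset (Fin n)) (t : Slot n M) : ee n M (Sum.inr (0, t)) ∈ AA (M := M) A :=
  mem_union_right _ (mem_image_of_mem _ (mem_univ t))

theorem mem_UU (t : Slot n M) : ee n M (Sum.inr (1, t)) ∈ UU (n := n) (M := M) :=
  mem_image_of_mem _ (mem_univ t)

section geo

variable {K : Type} [Field K] {ι κ : Type} (σ : K →+* ℂ) (F : ι → MvPolynomial (Fin n) (𝓞 K))
  (G : κ → MvPolynomial (Fin n) (𝓞 K)) (A : Finset (Fin n)) (T : Finset (Slot n M))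
  (τ : Fin n → Slot n M)

theorem mem_FF (z : Fin (NN n M) → ℂ) : z ∈ CPts σ (FF F T τ) ↔ px z ∈ CPts σ F ∧
    (∀ c, ∑ t ∈ slots T c, tm (px z) (pα z) (pu z) t = 0) ∧ (∀ t, pu z t * pv z t = 1) ∧
      ∀ t, (t ∉ T ∨ t = τ t.1) → pu z t = 1 := eval_FF _ z F T τ

theorem mem_GG (z : Fin (NN n M) → ℂ) : z ∈ CPts σ (GG G T) ↔
    px z ∈ CPts σ G ∨ ¬ Good T (px z) (pα z) (pu z) := eval_GG _ z G T

theorem units_FF : UnitsOn σ (FF F T τ) (UU (n := n) (M := M)) := by
  intro z hz i hi h0
  obtain ⟨t, -, rfl⟩ := mem_image.1 hi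
  have h1 := ((mem_FF σ F T τ z).1 hz).2.2.1 t
  unfold pu at h1
  rw [h0, zero_mul] at h1
  exact zero_ne_one h1

theorem sum_split (x : Fin n → ℂ) (α u : Slot n M → ℂ) (c : Fin n) :
    ∑ t ∈ slots T c, tm x α u t = x c * ∑ t ∈ qslots T c, α t * u t -
      ∑ t ∈ (slots T c).filter (fun t => ¬ t.2.1 = true), α t * u t := by
  rw [← sum_filter_add_sum_filter_not (slots T c) (fun t => t.2.1 = true), mul_sum]
  have h1 : ∑ t ∈ (slots T c).filter (fun t => t.2.1 = true), tm x α u t =
      ∑ t ∈ qslots T c, x c * (α t * u t) := by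
    refine sum_congr rfl fun t ht => ?_
    obtain ⟨h2, h3⟩ := mem_filter.1 ht
    unfold tm
    rw [if_pos h3, (mem_slots.1 h2).2]
  have h2 : ∑ t ∈ (slots T c).filter (fun t => ¬ t.2.1 = true), tm x α u t =
      - ∑ t ∈ (slots T c).filter (fun t => ¬ t.2.1 = true), α t * u t := by
    rw [← sum_neg_distrib]
    refine sum_congr rfl fun t ht => ?_
    obtain ⟨h2, h3⟩ := mem_filter.1 ht
    unfold tm
    rw [if_neg h3]
    ring
  rw [h1, h2]
  ring

theorem covered_FF : Covered σ (FF F T τ) (GG G T) (AA A) (UU (n := n) (M := M)) := by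
  intro z hz hG z' hz' hzz hne
  exfalso
  apply hne
  rw [mem_GG, not_or, not_not] at hG
  obtain ⟨h1, h2, h3, h4⟩ := (mem_FF σ F T τ z).1 hz
  obtain ⟨h1', h2', h3', h4'⟩ := (mem_FF σ F T τ z').1 hz'
  have hα : pα z' = pα z := funext fun t => hzz _ (mem_union_right _ (mem_AA_α A t))
  have hu : pu z' = pu z := funext fun t => hzz _ (mem_union_left _ (mem_UU t))
  refine ext_pt ?_ hα hu ?_
  · funext c
    have e1 := h2 c
    have e2 := h2' c
    rw [sum_split] at e1 e2
    rw [hα, hu] at e2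
    have e3 := hG.2.1 c
    have e4 : (px z' c - px z c) * ∑ t ∈ qslots T c, pα z t * pu z t = 0 := by
      linear_combination e2 - e1
    exact sub_eq_zero.1 ((mul_eq_zero.1 e4).resolve_right e3)
  · funext t
    have e1 := h3 t
    have e2 := h3' t
    rw [hu] at e2
    have e3 : pu z t ≠ 0 := by
      intro h0
      rw [h0, zero_mul] at e1
      exact zero_ne_one e1
    exact mul_left_cancel₀ e3 (e2.trans e1.symm)

/-- the vertical curves lie in the exceptional set -/
theorem vert_FF (hτ : ∀ c, τ c ∈ slots T c) (h : VertGmIn σ F G A) :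
    VertGmIn σ (FF F T τ) (GG G T) (AA (M := M) A) := by
  classical
  rintro v ⟨hv, hvF, hvA, hne⟩ s hs
  rw [mem_GG]
  by_cases hx : ∃ s, s ≠ 0 ∧ px (v s) ≠ px (v 1)
  · left
    refine h (fun s => px (v s)) ⟨fun j => hv _, fun s hs => ((mem_FF σ F T τ _).1 (hvF s hs)).1,
      fun i hi s hs => hvA _ (mem_AA_x hi) s hs, hx⟩ s hs
  right
  push Not at hx
  have hα : ∀ s, s ≠ 0 → pα (v s) = pα (v 1) := fun s hs =>
    funext fun t => hvA _ (mem_AA_α A t) s hs
  have hun : ∀ t, ∃ l : ℤ, ∀ s, s ≠ 0 → pu (v s) t = pu (v 1) t * s ^ l := fun t =>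
    laur_unit (hv _) (hv (ee n M (Sum.inr (2, t)))) fun s hs =>
      ((mem_FF σ F T τ _).1 (hvF s hs)).2.2.1 t
  choose l hl using hun
  have hl0 : ∀ t, (t ∉ T ∨ t = τ t.1) → l t = 0 := by
    intro t ht
    have h1 := ((mem_FF σ F T τ _).1 (hvF 1 one_ne_zero)).2.2.2 t ht
    have h2 := ((mem_FF σ F T τ _).1 (hvF 2 two_ne_zero)).2.2.2 t ht
    have h3 := hl t 2 two_ne_zero
    rw [h1, h2, one_mul] at h3
    by_contra h4
    have h5 := congrArg (fun w : ℂ => ‖w‖) h3
    simp only [norm_one, norm_zpow, Complex.norm_ofNat] at h5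
    have h6 : ((2 : ℝ) ^ (0 : ℤ)) = (2 : ℝ) ^ l t := by rw [zpow_zero]; exact h5
    exact h4 (zpow_right_injective₀ (by norm_num : (0 : ℝ) < 2) (by norm_num) h6).symm
  have htm : ∀ s, s ≠ 0 → ∀ t, tm (px (v s)) (pα (v s)) (pu (v s)) t =
      tm (px (v 1)) (pα (v 1)) (pu (v 1)) t * s ^ l t := by
    intro s hs t
    unfold tm
    rw [hx s hs, hα s hs, hl t s hs]
    ring
  obtain ⟨c, t0, ht0, hlt⟩ : ∃ c, ∃ t ∈ slots T c, l t ≠ 0 := by
    by_contra hcon
    push Not at hcon
    obtain ⟨s1, hs1, hne⟩ := hne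
    apply hne
    have hl1 : ∀ t, l t = 0 := by
      intro t
      by_cases ht : t ∈ T
      · exact hcon t.1 t (mem_slots.2 ⟨ht, rfl⟩)
      · exact hl0 t (Or.inl ht)
    have hu : pu (v s1) = pu (v 1) := by
      funext t
      rw [hl t s1 hs1, hl1, zpow_zero, mul_one]
    refine ext_pt (hx s1 hs1) (hα s1 hs1) hu ?_
    funext t
    have e1 := ((mem_FF σ F T τ _).1 (hvF 1 one_ne_zero)).2.2.1 t
    have e2 := ((mem_FF σ F T τ _).1 (hvF s1 hs1)).2.2.1 t
    rw [hu] at e2
    have e3 : pu (v 1) t ≠ 0 := by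
      intro h0
      rw [h0, zero_mul] at e1
      exact zero_ne_one e1
    exact mul_left_cancel₀ e3 (e2.trans e1.symm)
  intro hgood
  have hJ : (slots T c).filter (fun t => l t = 0) ⊆ slots T c := filter_subset _ _
  refine hgood.2 c _ hJ ⟨τ c, mem_filter.2 ⟨hτ c, hl0 _ (Or.inr ?_)⟩⟩ (fun he => ?_) ?_
  · rw [(mem_slots.1 (hτ c)).2]
  · rw [← he] at ht0
    exact hlt (mem_filter.1 ht0).2
  · have h1 := const_coeff (slots T c) (fun t => tm (px (v 1)) (pα (v 1)) (pu (v 1)) t) l
      (fun s hs => by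
        rw [← sum_congr rfl fun t _ => htm s hs t]
        exact ((mem_FF σ F T τ _).1 (hvF s hs)).2.1 c)
    rw [← h1]
    refine sum_congr rfl fun t ht => ?_
    rw [htm s hs, (mem_filter.1 ht).2, zpow_zero, mul_one]

end geo

end var

end Pool.Agent.W2helper42.CX
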