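import Mathlib
import Pool.Agent.W2helper42.RB.ArB
import Pool.Agent.W2helper42.RB.ArA
import Pool.Agent.W2helper42.CX.Dfs
import Pool.Agent.W2helper42.CX.Var

/-!
Integral points of bounded complexity.
-/

set_option autoImplicit false

namespace Pool.Agent.W2helper42.CX

open Finset MvPolynomial IsDedekindDomain
open Pool.Agent.H159R3.Exp
open Pool.Agent.W2helper42.RB
open scoped NumberField

section ht

variable {L : Type} [Field L] [NumberField L] {m D : ℕ} {a : Fin m → L}

theorem ht_mn {α : L} (h : Mn a D α) :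
    Height.logHeight₁ α ≤ D * ∑ i, Height.logHeight₁ (a i) := by
  have h0 : ∀ i, 0 ≤ Height.logHeight₁ (a i) := fun i => Height.zero_le_logHeight₁ _
  rcases h with rfl | ⟨e, h1, rfl⟩
  · rw [Height.logHeight₁_zero]
    exact mul_nonneg (Nat.cast_nonneg _) (sum_nonneg fun i _ => h0 i)
  · refine (Height.logHeight₁_prod_le _ _).trans ?_
    rw [mul_sum]
    refine sum_le_sum fun i _ => ?_
    rw [Height.logHeight₁_pow]
    refine mul_le_mul_of_nonneg_right ?_ (h0 i)
    have h2 : e i ≤ ∑ i, e i := single_le_sum (f := e) (fun _ _ => Nat.zero_le _) (mem_univ i)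
    exact_mod_cast h2.trans h1

theorem mn_int {S : Set (HeightOneSpectrum (𝓞 L))} (ha : ∀ i, a i ∈ S.integer L) {α : L}
    (h : Mn a D α) : α ∈ S.integer L := by
  rcases h with rfl | ⟨e, -, rfl⟩
  · exact (S.integer L).zero_mem
  · exact (S.integer L).prod_mem fun i _ => (S.integer L).pow_mem (ha i) _

end ht

theorem sum_idx {n M : ℕ} (g : Fin (NN n M) → ℝ) : ∑ i, g i =
    ∑ c, g (ee n M (Sum.inl c)) + ∑ p, g (ee n M (Sum.inr p)) := by
  rw [← (ee n M).sum_comp, Fintype.sum_sum_type]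

theorem sum_AA_le {n M : ℕ} (A : Finset (Fin n)) (g : Fin (NN n M) → ℝ) :
    ∑ i ∈ AA (M := M) A, g i = ∑ c ∈ A, g (ee n M (Sum.inl c)) +
      ∑ t, g (ee n M (Sum.inr (0, t))) := by
  classical
  unfold AA
  rw [sum_union, sum_image, sum_image]
  · intro t _ t' _ h
    have h1 := (ee n M).injective h
    simpa using h1
  · intro t _ t' _ h
    have h1 := (ee n M).injective h
    simpa using h1
  · rw [disjoint_left]
    intro i hi hi'
    obtain ⟨c, -, rfl⟩ := mem_image.1 hi
    obtain ⟨t, -, h⟩ := mem_image.1 hi'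
    have h1 := (ee n M).injective h
    simp at h1

/-- the condition on maps from the punctured line implies the arithmetic bound -/
theorem arith_of_vert {K : Type} [Field K] [NumberField K] {ι κ : Type} {n : ℕ} (σ : K →+* ℂ)
    [Finite ι] (F : ι → MvPolynomial (Fin n) (𝓞 K)) (G : κ → MvPolynomial (Fin n) (𝓞 K))
    (A : Finset (Fin n)) (h : VertGmIn σ F G A) : ArithBound F G A := by
  classical
  intro L _ _ _ S hS m
  let M := Mf m
  let D := Df m
  have hC : ∀ p : Finset (Slot n M) × (Fin n → Slot n M), ∃ C : ℝ, 0 ≤ C ∧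
      ((∀ c, p.2 c ∈ slots p.1 c) → ∀ z ∈ intPoints (FF F p.1 p.2) L S \ intPoints (GG G p.1) L S,
        ∑ j, Height.logHeight₁ (z j) ≤ C * (1 + ∑ i ∈ AA A, Height.logHeight₁ (z i))) := by
    intro p
    by_cases hp : ∀ c, p.2 c ∈ slots p.1 c
    · obtain ⟨C, hC⟩ := integral_of_vert σ (FF F p.1 p.2) (GG G p.1) (AA A) UU
        (units_FF σ F p.1 p.2) (covered_FF σ F G A p.1 p.2) (vert_FF σ F G A p.1 p.2 hp h) L S hS
      refine ⟨|C|, abs_nonneg _, fun _ z hz => (hC z hz).trans ?_⟩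
      refine mul_le_mul_of_nonneg_right (le_abs_self C) ?_
      have : 0 ≤ ∑ i ∈ AA A, Height.logHeight₁ (z i) :=
        sum_nonneg fun i _ => Height.zero_le_logHeight₁ _
      linarith
    · exact ⟨0, le_refl _, fun h => absurd h hp⟩
  choose C hC0 hC using hC
  let C' : ℝ := ∑ p, C p
  let R : ℝ := Fintype.card (Slot n M) * D
  have hR : 0 ≤ R := by positivity
  have hC'0 : 0 ≤ C' := sum_nonneg fun p _ => hC0 p
  refine ⟨C' * (1 + R), fun a ha x hx hcx => ?_⟩
  obtain ⟨T, τ, α, u, h1, h2, h3, h4, h5, h6⟩ := exists_normal (W := SUnits S) (a := a)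
    (M := M) (D := D) (fun u hu => hu.1) SUnits.one (fun u hu w hw => SUnits.div hu hw) x
    (fun c => rep SUnits.one (fun u hu w hw => SUnits.mul hu hw) m (x c) (hcx c))
  let z : Fin (NN n M) → L := mk x α u fun t => (u t)⁻¹
  have hzx : px z = x := px_mk _ _ _ _
  have hzα : pα z = α := pα_mk _ _ _ _
  have hzu : pu z = u := pu_mk _ _ _ _
  have hzv : pv z = fun t => (u t)⁻¹ := pv_mk _ _ _ _
  have hint : ∀ i, z i ∈ S.integer L := forall_coord (P := fun y => y ∈ S.integer L)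
    (fun c => by rw [hzx]; exact hx.1.1 c) (fun t => by rw [hzα]; exact mn_int ha (h1 t))
    (fun t => by rw [hzu]; exact (h2 t).2.1) (fun t => by rw [hzv]; exact (h2 t).2.2)
  have hzF : z ∈ intPoints (FF F T τ) L S := by
    refine ⟨hint, (eval_FF _ z F T τ).2 ⟨fun l => ?_, fun c => ?_, fun t => ?_, fun t ht => ?_⟩⟩
    · rw [hzx]
      exact hx.1.2 l
    · rw [hzx, hzα, hzu]
      exact (h5 c).1
    · rw [hzu, hzv]
      exact mul_inv_cancel₀ (h2 t).1
    · rw [hzu]
      rcases ht with ht | ht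
      · exact h3 t ht
      · rw [ht]
        exact (h4 t.1).2
  have hzG : z ∉ intPoints (GG G T) L S := by
    intro hmem
    rcases (eval_GG _ z G T).1 hmem.2 with h7 | h7
    · rw [hzx] at h7
      exact hx.2 ⟨hx.1.1, h7⟩
    · apply h7
      rw [hzx, hzα, hzu]
      exact ⟨fun c => (h5 c).2, h6⟩
  have key := hC (T, τ) (fun c => (h4 c).1) z ⟨hzF, hzG⟩
  rw [sum_idx, sum_AA_le] at key
  have e1 : ∑ c, Height.logHeight₁ (z (ee n M (Sum.inl c))) = ∑ c, Height.logHeight₁ (x c) :=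
    sum_congr rfl fun c _ => congrArg _ (congrFun hzx c)
  have e2 : ∑ c ∈ A, Height.logHeight₁ (z (ee n M (Sum.inl c))) =
      ∑ c ∈ A, Height.logHeight₁ (x c) :=
    sum_congr rfl fun c _ => congrArg _ (congrFun hzx c)
  have e3 : ∑ t, Height.logHeight₁ (z (ee n M (Sum.inr (0, t)))) ≤
      R * ∑ i, Height.logHeight₁ (a i) := by
    have e4 : ∀ t, Height.logHeight₁ (z (ee n M (Sum.inr (0, t)))) ≤
        D * ∑ i, Height.logHeight₁ (a i) := by
      intro t
      have e5 : z (ee n M (Sum.inr (0, t))) = α t := congrFun hzα t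
      rw [e5]
      exact ht_mn (h1 t)
    refine (sum_le_sum fun t _ => e4 t).trans (le_of_eq ?_)
    rw [sum_const, card_univ, nsmul_eq_mul]
    ring
  have e6 : 0 ≤ ∑ p, Height.logHeight₁ (z (ee n M (Sum.inr p))) :=
    sum_nonneg fun p _ => Height.zero_le_logHeight₁ _
  rw [e1, e2] at key
  have hA0 : 0 ≤ ∑ c ∈ A, Height.logHeight₁ (x c) :=
    sum_nonneg fun c _ => Height.zero_le_logHeight₁ _
  have ha0 : 0 ≤ ∑ i, Height.logHeight₁ (a i) :=
    sum_nonneg fun c _ => Height.zero_le_logHeight₁ _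
  have hCp : C (T, τ) ≤ C' := single_le_sum (f := C) (fun p _ => hC0 p) (mem_univ (T, τ))
  calc ∑ j, Height.logHeight₁ (x j)
      ≤ C (T, τ) * (1 + (∑ c ∈ A, Height.logHeight₁ (x c) +
        ∑ t, Height.logHeight₁ (z (ee n M (Sum.inr (0, t)))))) := by linarith
    _ ≤ C (T, τ) * (1 + (∑ c ∈ A, Height.logHeight₁ (x c) + R * ∑ i, Height.logHeight₁ (a i))) :=
        mul_le_mul_of_nonneg_left (by linarith) (hC0 _)
    _ ≤ C' * (1 + (∑ c ∈ A, Height.logHeight₁ (x c) + R * ∑ i, Height.logHeight₁ (a i))) :=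
        mul_le_mul_of_nonneg_right hCp (by positivity)
    _ ≤ C' * ((1 + R) * (1 + ∑ c ∈ A, Height.logHeight₁ (x c) + ∑ i, Height.logHeight₁ (a i))) := by
        refine mul_le_mul_of_nonneg_left ?_ hC'0
        nlinarith [mul_nonneg hR hA0, mul_nonneg hR ha0]
    _ = _ := by ring

end Pool.Agent.W2helper42.CX
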