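import Mathlib
import Pool.Agent.W2helper42.RB.EntA
import Pool.Agent.W2helper42.CX.Dfs
import Pool.Agent.W2helper42.CX.Var
import Pool.Agent.W2helper42.CX.Ar

/-!
Entire curves of bounded complexity.
-/

set_option autoImplicit false

namespace Pool.Agent.W2helper42.CX

open Finset MvPolynomial Filter MeasureTheory
open Pool.Agent.H159R3.Exp
open Pool.Agent.W2helper42.RB
open scoped NumberField

/-- an ultrafilter finer than the filter of the complements of discrete closed sets -/
noncomputable def 𝒰 : Ultrafilter ℂ := Ultrafilter.of (codiscrete ℂ)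

theorem 𝒰_le : (𝒰 : Filter ℂ) ≤ codiscrete ℂ := Ultrafilter.of_le _

/-- germs -/
abbrev Gm : Type := Filter.Germ (𝒰 : Filter ℂ) ℂ

/-- the germ of a function -/
noncomputable def co : (ℂ → ℂ) →+* Gm := Filter.Germ.coeRingHom (𝒰 : Filter ℂ)

theorem co_eq {f g : ℂ → ℂ} : co f = co g ↔ f =ᶠ[(𝒰 : Filter ℂ)] g := Filter.Germ.coe_eq

theorem co_div (f g : ℂ → ℂ) : co (f / g) = co f / co g := rfl

theorem co_cx {B : Set (ℂ → ℂ)} (m : ℕ) : ∀ z ∈ Cx B m, co z ∈ Cx (co '' B) m := by
  induction m with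
  | zero => exact fun z hz => ⟨z, hz, rfl⟩
  | succ m ih =>
    rintro z (hz | ⟨x, hx, y, hy, hz⟩)
    · exact Or.inl (ih z hz)
    · refine Or.inr ⟨co x, ih x hx, co y, ih y hy, ?_⟩
      rcases hz with rfl | rfl | rfl
      · exact Or.inl (map_add co x y)
      · exact Or.inr (Or.inl (map_mul co x y))
      · exact Or.inr (Or.inr (co_div x y))

/-- the identity theorem -/
theorem entire_ne {f : ℂ → ℂ} (hf : Differentiable ℂ f) {z0 : ℂ} (h : f z0 ≠ 0) :
    ∀ᶠ z in (𝒰 : Filter ℂ), f z ≠ 0 :=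
  𝒰_le (AnalyticOnNhd.preimage_zero_mem_codiscrete (fun z _ => hf.analyticAt z) h)

theorem entire_zero {f : ℂ → ℂ} (hf : Differentiable ℂ f) (h : co f = 0) : ∀ z, f z = 0 := by
  intro z
  by_contra h1
  have h2 := entire_ne hf h1
  have h3 : f =ᶠ[(𝒰 : Filter ℂ)] 0 := by
    rw [← map_zero co] at h
    exact co_eq.1 h
  obtain ⟨w, h4, h5⟩ := (h2.and h3).exists
  exact h4 h5

theorem co_ne {f : ℂ → ℂ} (h : co f ≠ 0) : ∀ᶠ z in (𝒰 : Filter ℂ), f z ≠ 0 := by
  rw [← map_zero co, Ne, co_eq] at h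
  exact Ultrafilter.eventually_not.2 h

section char

variable {m D : ℕ} {a : Fin m → ℂ → ℂ}

theorem circ_int {f : ℂ → ℂ} (hf : Differentiable ℂ f) (r : ℝ) :
    CircleIntegrable (fun z => Real.posLog ‖f z‖) 0 r :=
  (Real.continuous_posLog.comp hf.continuous.norm).continuousOn.circleIntegrable'

/-- the characteristic function of a monomial -/
theorem char_mn (ha : ∀ i, Differentiable ℂ (a i)) (e : Fin m → ℕ) (he : ∑ i, e i ≤ D) (r : ℝ) :
    charFn (fun z => ∏ i, a i z ^ e i) r ≤ D * ∑ i, charFn (a i) r := by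
  have h1 : Differentiable ℂ fun z => ∏ i, a i z ^ e i := by
    refine Differentiable.fun_finsetProd fun i _ => (ha i).pow _
  have h2 : (D : ℝ) * ∑ i, charFn (a i) r =
      Real.circleAverage (fun z => ∑ i, (D : ℝ) • Real.posLog ‖a i z‖) 0 r := by
    rw [Real.circleAverage_fun_sum fun i _ => (circ_int (ha i) r).const_fun_smul, mul_sum]
    refine sum_congr rfl fun i _ => ?_
    rw [Real.circleAverage_fun_smul]
    rfl
  rw [h2]
  refine Real.circleAverage_mono (circ_int h1 r) ?_ fun z _ => ?_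
  · exact CircleIntegrable.fun_sum _ fun i _ => (circ_int (ha i) r).const_fun_smul
  · rw [norm_prod]
    refine (Real.posLog_prod _ _).trans (sum_le_sum fun i _ => ?_)
    rw [norm_pow, Real.posLog_pow, smul_eq_mul]
    refine mul_le_mul_of_nonneg_right ?_ Real.posLog_nonneg
    have h3 : e i ≤ ∑ i, e i := single_le_sum (f := e) (fun _ _ => Nat.zero_le _) (mem_univ i)
    exact_mod_cast h3.trans he

/-- lifting monomials -/
theorem lift_mn (ha : ∀ i, Differentiable ℂ (a i)) {α : Gm} (h : Mn (fun i => co (a i)) D α) :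
    ∃ f : ℂ → ℂ, Differentiable ℂ f ∧ co f = α ∧ ∀ r, charFn f r ≤ D * ∑ i, charFn (a i) r := by
  rcases h with rfl | ⟨e, h1, rfl⟩
  · refine ⟨fun _ => 0, differentiable_const _, map_zero co, fun r => ?_⟩
    rw [charFn_const (c := 0) (fun _ => rfl), norm_zero, Real.posLog_zero]
    exact mul_nonneg (Nat.cast_nonneg _) (sum_nonneg fun i _ => charFn_nonneg _ _)
  · refine ⟨fun z => ∏ i, a i z ^ e i,
      Differentiable.fun_finsetProd fun i _ => (ha i).pow _, ?_, fun r => char_mn ha e h1 r⟩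
    have h2 : (fun z => ∏ i, a i z ^ e i) = ∏ i, a i ^ e i := by
      funext z
      rw [Finset.prod_apply]
      rfl
    rw [h2, map_prod]
    exact prod_congr rfl fun i _ => map_pow co _ _

end char

/-- the condition on maps from the punctured line implies the analytic bound -/
theorem curve_of_vert {K : Type} [Field K] {ι κ : Type} {n : ℕ} (σ : K →+* ℂ)
    [Finite ι] (F : ι → MvPolynomial (Fin n) (𝓞 K)) (G : κ → MvPolynomial (Fin n) (𝓞 K))
    (A : Finset (Fin n)) (h : VertGmIn σ F G A) : CurveBound σ F G A := by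
  classical
  rintro m a ha f hf hfF ⟨z0, hz0⟩ hcx
  let M := Mf m
  let D := Df m
  have hfc : ∀ c, Differentiable ℂ fun z => f z c := differentiable_pi.1 hf
  let x : Fin n → Gm := fun c => co fun z => f z c
  let W : Set Gm := co '' ZeroFree
  have hWone : (1 : Gm) ∈ W := ⟨1, ⟨differentiable_const _, fun _ => one_ne_zero⟩, map_one co⟩
  have hW0 : ∀ u ∈ W, u ≠ 0 := by
    rintro _ ⟨u, ⟨hu, hu0⟩, rfl⟩ h0
    exact hu0 0 (entire_zero hu h0 0)
  have hWm : ∀ u ∈ W, ∀ w ∈ W, u * w ∈ W := by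
    rintro _ ⟨u, ⟨hu, hu0⟩, rfl⟩ _ ⟨w, ⟨hw, hw0⟩, rfl⟩
    exact ⟨u * w, ⟨hu.mul hw, fun z => mul_ne_zero (hu0 z) (hw0 z)⟩, map_mul co u w⟩
  have hWd : ∀ u ∈ W, ∀ w ∈ W, u / w ∈ W := by
    rintro _ ⟨u, ⟨hu, hu0⟩, rfl⟩ _ ⟨w, ⟨hw, hw0⟩, rfl⟩
    exact ⟨u / w, ⟨hu.div hw hw0, fun z => div_ne_zero (hu0 z) (hw0 z)⟩, co_div u w⟩
  have hxcx : ∀ c, x c ∈ Cx (Set.range (fun i => co (a i)) ∪ W) m := by
    intro c
    obtain ⟨g, hg, hfg⟩ := hcx c
    have h1 : x c = co g := co_eq.2 (hfg.filter_mono 𝒰_le)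
    rw [h1]
    refine Cx.sub ?_ (co_cx m g hg)
    rw [Set.image_union]
    refine Set.union_subset_union_left _ ?_
    rintro _ ⟨_, ⟨i, rfl⟩, rfl⟩
    exact ⟨i, rfl⟩
  obtain ⟨T, τ, α, u, h1, h2, h3, h4, h5, h6⟩ := exists_normal (W := W)
    (a := fun i => co (a i)) (M := M) (D := D) hW0 hWone hWd x
    (fun c => rep hWone hWm m (x c) (hxcx c))
  choose β hβ1 hβ2 hβ3 using fun t => lift_mn ha (h1 t)
  choose w hw hwu using h2
  -- the terms
  let tf : Slot n M → ℂ → ℂ := fun t z => tm (f z) (fun t => β t z) (fun t => w t z) t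
  have htf : ∀ t, Differentiable ℂ (tf t) := by
    intro t
    have e1 : Differentiable ℂ fun z => β t z * w t z := (hβ1 t).mul (hw t).1
    by_cases ht : t.2.1 = true
    · have e2 : tf t = fun z => f z t.1 * (β t z * w t z) := by
        funext z
        show (if t.2.1 = true then f z t.1 else -1) * (β t z * w t z) = _
        rw [if_pos ht]
      rw [e2]
      exact (hfc _).mul e1
    · have e2 : tf t = fun z => -1 * (β t z * w t z) := by
        funext z
        show (if t.2.1 = true then f z t.1 else -1) * (β t z * w t z) = _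
        rw [if_neg ht]
      rw [e2]
      exact (differentiable_const _).mul e1
  have htc : ∀ t, co (tf t) = tm x α u t := by
    intro t
    unfold tm
    by_cases ht : t.2.1 = true
    · have e2 : tf t = (fun z => f z t.1) * (β t * w t) := by
        funext z
        show (if t.2.1 = true then f z t.1 else -1) * (β t z * w t z) = _
        rw [if_pos ht]
        rfl
      rw [e2, if_pos ht, map_mul, map_mul, hβ2, hwu]
    · have e2 : tf t = (-1) * (β t * w t) := by
        funext z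
        show (if t.2.1 = true then f z t.1 else -1) * (β t z * w t z) = _
        rw [if_neg ht]
        rfl
      rw [e2, if_neg ht, map_mul, map_mul, map_neg, map_one, hβ2, hwu]
  have hsum : ∀ J : Finset (Slot n M), co (fun z => ∑ t ∈ J, tf t z) = ∑ t ∈ J, tm x α u t := by
    intro J
    have e1 : (fun z => ∑ t ∈ J, tf t z) = ∑ t ∈ J, tf t := by
      funext z
      rw [Finset.sum_apply]
    rw [e1, map_sum]
    exact sum_congr rfl fun t _ => htc t
  have hsumd : ∀ J : Finset (Slot n M), Differentiable ℂ (fun z => ∑ t ∈ J, tf t z) := fun J =>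
    Differentiable.fun_sum fun t _ => htf t
  have hden : ∀ J : Finset (Slot n M), co (fun z => ∑ t ∈ J, β t z * w t z) =
      ∑ t ∈ J, α t * u t := by
    intro J
    have e1 : (fun z => ∑ t ∈ J, β t z * w t z) = ∑ t ∈ J, β t * w t := by
      funext z
      rw [Finset.sum_apply]
      rfl
    rw [e1, map_sum]
    refine sum_congr rfl fun t _ => ?_
    rw [map_mul, hβ2, hwu]
  -- the curve
  let g : ℂ → Fin (NN n M) → ℂ := fun z =>
    mk (f z) (fun t => β t z) (fun t => w t z) fun t => (w t z)⁻¹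
  have hgx : ∀ z, px (g z) = f z := fun z => px_mk _ _ _ _
  have hgα : ∀ z, pα (g z) = fun t => β t z := fun z => pα_mk _ _ _ _
  have hgu : ∀ z, pu (g z) = fun t => w t z := fun z => pu_mk _ _ _ _
  have hgv : ∀ z, pv (g z) = fun t => (w t z)⁻¹ := fun z => pv_mk _ _ _ _
  have hgi : ∀ c, (fun z => g z (ee n M (Sum.inl c))) = fun z => f z c := fun c =>
    funext fun z => congrFun (hgx z) c
  have hgia : ∀ t, (fun z => g z (ee n M (Sum.inr (0, t)))) = β t := fun t =>
    funext fun z => congrFun (hgα z) t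
  have hgd : Differentiable ℂ g := by
    refine differentiable_pi.2 fun i => ?_
    obtain ⟨j, rfl⟩ := (ee n M).surjective i
    rcases j with c | ⟨k, t⟩
    · rw [hgi c]
      exact hfc c
    · fin_cases k
      · exact (hgia t) ▸ hβ1 t
      · have e1 : (fun z => g z (ee n M (Sum.inr (1, t)))) = w t :=
          funext fun z => congrFun (hgu z) t
        show Differentiable ℂ fun z => g z (ee n M (Sum.inr (1, t)))
        rw [e1]
        exact (hw t).1
      · have e1 : (fun z => g z (ee n M (Sum.inr (2, t)))) = fun z => (w t z)⁻¹ :=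
          funext fun z => congrFun (hgv z) t
        show Differentiable ℂ fun z => g z (ee n M (Sum.inr (2, t)))
        rw [e1]
        exact (hw t).1.inv (hw t).2
  have hw1 : ∀ t, u t = 1 → ∀ z, w t z = 1 := by
    intro t ht z
    have e1 : ∀ z, w t z - 1 = 0 := entire_zero (f := fun z => w t z - 1)
      ((hw t).1.sub (differentiable_const _)) (by
        show co (w t - 1) = 0
        rw [map_sub, map_one, hwu, ht, sub_self])
    exact sub_eq_zero.1 (e1 z)
  have hgF : ∀ z, g z ∈ CPts σ (FF F T τ) := by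
    intro z
    rw [mem_FF, hgx, hgα, hgu, hgv]
    refine ⟨hfF z, fun c => ?_, fun t => mul_inv_cancel₀ ((hw t).2 z), fun t ht => hw1 t ?_ z⟩
    · exact entire_zero (hsumd (slots T c)) (by rw [hsum]; exact (h5 c).1) z
    · rcases ht with ht | ht
      · exact h3 t ht
      · rw [ht]
        exact (h4 t.1).2
  have hgG : ∃ z, g z ∉ CPts σ (GG G T) := by
    obtain ⟨l, hl⟩ : ∃ l, eval₂ (σ.comp (algebraMap (𝓞 K) K)) (f z0) (G l) ≠ 0 := by
      by_contra hcon
      push Not at hcon
      exact hz0 hcon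
    have e0 : ∀ᶠ z in (𝒰 : Filter ℂ), eval₂ (σ.comp (algebraMap (𝓞 K) K)) (f z) (G l) ≠ 0 := by
      refine entire_ne (f := fun z => eval₂ (σ.comp (algebraMap (𝓞 K) K)) (f z) (G l)) ?_ hl
      have e1 : (fun z => eval₂ (σ.comp (algebraMap (𝓞 K) K)) (f z) (G l)) =
          fun z => eval (f z) (map (σ.comp (algebraMap (𝓞 K) K)) (G l)) :=
        funext fun z => (eval_map _ _ _).symm
      rw [e1]
      exact differentiable_eval hf _
    have e2 : ∀ᶠ z in (𝒰 : Filter ℂ), ∀ c, ∑ t ∈ qslots T c, β t z * w t z ≠ 0 := by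
      refine (Filter.eventually_all).2 fun c => co_ne ?_
      rw [hden]
      exact (h5 c).2
    have e3 : ∀ᶠ z in (𝒰 : Filter ℂ), ∀ c, ∀ J : Finset (Slot n M), J ⊆ slots T c →
        J.Nonempty → J ≠ slots T c → ∑ t ∈ J, tf t z ≠ 0 := by
      refine (Filter.eventually_all).2 fun c => (Filter.eventually_all).2 fun J => ?_
      by_cases hJ : J ⊆ slots T c ∧ J.Nonempty ∧ J ≠ slots T c
      · have e4 := co_ne (f := fun z => ∑ t ∈ J, tf t z) (by
          rw [hsum]
          exact h6 c J hJ.1 hJ.2.1 hJ.2.2)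
        filter_upwards [e4] with z hz _ _ _
        exact hz
      · exact Filter.Eventually.of_forall fun z g1 g2 g3 => absurd ⟨g1, g2, g3⟩ hJ
    obtain ⟨z, g1, g2, g3⟩ := (e0.and (e2.and e3)).exists
    refine ⟨z, ?_⟩
    rw [mem_GG, not_or, not_not, hgx, hgα, hgu]
    exact ⟨fun hmem => g1 (hmem l), g2, g3⟩
  by_cases hτ : ∀ c, τ c ∈ slots T c
  swap
  · exact absurd (fun c => (h4 c).1) hτ
  obtain ⟨C, E, hE, hb⟩ := entire_of_vert σ (FF F T τ) (GG G T) (AA A) UU (units_FF σ F T τ)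
    (covered_FF σ F G A T τ) (vert_FF σ F G A T τ hτ h) g hgd hgF hgG
  let R : ℝ := Fintype.card (Slot n M) * D
  have hR : 0 ≤ R := by positivity
  refine ⟨|C| * (1 + R), E, hE, fun r hr hrE => ?_⟩
  have key := hb r hr hrE
  rw [sum_idx (fun i => charFn (fun z => g z i) r), sum_AA_le A (fun i => charFn (fun z => g z i) r)]
    at key
  have e1 : ∑ c, charFn (fun z => g z (ee n M (Sum.inl c))) r = ∑ c, charFn (fun z => f z c) r :=
    sum_congr rfl fun c _ => by rw [hgi c]
  have e2 : ∑ c ∈ A, charFn (fun z => g z (ee n M (Sum.inl c))) r =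
      ∑ c ∈ A, charFn (fun z => f z c) r := sum_congr rfl fun c _ => by rw [hgi c]
  have e3 : ∑ t, charFn (fun z => g z (ee n M (Sum.inr (0, t)))) r ≤
      R * ∑ i, charFn (a i) r := by
    have e4 : ∀ t, charFn (fun z => g z (ee n M (Sum.inr (0, t)))) r ≤
        D * ∑ i, charFn (a i) r := by
      intro t
      rw [hgia t]
      exact hβ3 t r
    refine (sum_le_sum fun t _ => e4 t).trans (le_of_eq ?_)
    rw [sum_const, card_univ, nsmul_eq_mul]
    ring
  have e6 : 0 ≤ ∑ p, charFn (fun z => g z (ee n M (Sum.inr p))) r :=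
    sum_nonneg fun p _ => charFn_nonneg _ _
  rw [e1, e2] at key
  have hA0 : 0 ≤ ∑ c ∈ A, charFn (fun z => f z c) r := sum_nonneg fun c _ => charFn_nonneg _ _
  have ha0 : 0 ≤ ∑ i, charFn (a i) r := sum_nonneg fun c _ => charFn_nonneg _ _
  have hβ0 : 0 ≤ ∑ t, charFn (fun z => g z (ee n M (Sum.inr (0, t)))) r :=
    sum_nonneg fun c _ => charFn_nonneg _ _
  calc ∑ j, charFn (fun z => f z j) r
      ≤ C * (1 + (∑ c ∈ A, charFn (fun z => f z c) r +
        ∑ t, charFn (fun z => g z (ee n M (Sum.inr (0, t)))) r)) := by linarith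
    _ ≤ |C| * (1 + (∑ c ∈ A, charFn (fun z => f z c) r +
        ∑ t, charFn (fun z => g z (ee n M (Sum.inr (0, t)))) r)) :=
        mul_le_mul_of_nonneg_right (le_abs_self C) (by positivity)
    _ ≤ |C| * (1 + (∑ c ∈ A, charFn (fun z => f z c) r + R * ∑ i, charFn (a i) r)) :=
        mul_le_mul_of_nonneg_left (by linarith) (abs_nonneg _)
    _ ≤ |C| * ((1 + R) * (1 + ∑ c ∈ A, charFn (fun z => f z c) r + ∑ i, charFn (a i) r)) := by
        refine mul_le_mul_of_nonneg_left ?_ (abs_nonneg _)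
        nlinarith [mul_nonneg hR hA0, mul_nonneg hR ha0]
    _ = _ := by ring

end Pool.Agent.W2helper42.CX
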