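import Mathlib
import Pool.Agent.W2helper42.RB.Cor
import Pool.Agent.W2helper42.CX.Ar
import Pool.Agent.W2helper42.CX.En

/-!
The converse directions, and the equivalences.
-/

set_option autoImplicit false

namespace Pool.Agent.W2helper42.CX

open Finset MvPolynomial IsDedekindDomain Filter MeasureTheory
open Pool.Agent Pool.Agent.H159R3.Exp
open Pool.Agent.W2helper42.RB
open Pool.Agent.W235.RM (GmCurvesIn EntireCurvesIn)
open scoped NumberField

/-- the points of a Laurent curve -/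
theorem laurent_terms {k : Type} [Field k] {n : ℕ} (v : k → Fin n → k)
    (hv : ∀ j, Laur (fun t => v t j)) : ∃ (e : ℕ) (Q : Fin n → Polynomial k), ∀ t, t ≠ 0 → ∀ j,
      v t j = ∑ l ∈ (Q j).support, (Q j).coeff l * t ^ ((l : ℤ) - e) := by
  obtain ⟨e, Q, hQ⟩ := Laur.common v hv
  refine ⟨e, Q, fun t ht j => ?_⟩
  rw [hQ t ht j, Polynomial.eval_eq_sum, Polynomial.sum_def, sum_div]
  refine sum_congr rfl fun l _ => ?_
  rw [zpow_sub₀ ht, zpow_natCast, zpow_natCast]
  ring

/-- many integral points of bounded complexity on a vertical curve -/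
theorem exists_points {K : Type} [Field K] [NumberField K] {ι κ : Type} {n : ℕ} (σ : K →+* ℂ)
    (F : ι → MvPolynomial (Fin n) (𝓞 K)) (G : κ → MvPolynomial (Fin n) (𝓞 K))
    (A : Finset (Fin n)) (h : ¬ VertGmIn σ F G A) :
    ∃ (L : Type) (_ : Field L) (_ : NumberField L) (_ : Algebra K L)
      (S : Set (HeightOneSpectrum (𝓞 L))) (m : ℕ) (x : ℕ → Fin n → L) (y : Fin n → L) (I : Set ℕ)
      (j : Fin n), S.Finite ∧ I.Infinite ∧ (∀ k ∈ I, x k ∈ intPoints F L S \ intPoints G L S) ∧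
      (∀ k, ∀ i ∈ A, x k i = y i) ∧ (∀ k j, x k j ∈ Cx (SUnits S) m) ∧
      ∀ c, {k | x k j = c}.Finite := by
  classical
  unfold VertGmIn at h
  push Not at h
  obtain ⟨v, ⟨hv, hvF, hvA, s1, hs1, hne⟩, s0, hs0, hG⟩ := h
  obtain ⟨l, hl⟩ : ∃ l, eval₂ (σ.comp (algebraMap (𝓞 K) K)) (v s0) (G l) ≠ 0 := by
    by_contra hcon
    push Not at hcon
    exact hG hcon
  obtain ⟨j1, hj1⟩ := Function.ne_iff.1 hne
  obtain ⟨k0, hk0⟩ : ∃ k : ℕ, eval₂ (σ.comp (algebraMap (𝓞 K) K)) (v (2 ^ k)) (G l) ≠ 0 := by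
    by_contra hcon
    push Not at hcon
    exact hl (Laur.zero_of_zero (Laur.eval₂ (σ.comp (algebraMap (𝓞 K) K)) v hv (G l)) hcon s0 hs0)
  obtain ⟨k1, hk1⟩ : ∃ k : ℕ, v (2 ^ k) j1 ≠ v (2 ^ k0) j1 := by
    by_contra hcon
    push Not at hcon
    have h1 : Laur fun t => v t j1 + -(v (2 ^ k0) j1) := (hv j1).add (Laur.const _)
    have h2 := Laur.zero_of_zero h1 (fun m => by
      rw [hcon m]
      ring)
    apply hj1
    have h3 := h2 s1 hs1
    have h4 := h2 1 one_ne_zero
    linear_combination h3 - h4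
  let _ := σ.toAlgebra
  let FK : ι → MvPolynomial (Fin n) K := fun i => map (algebraMap (𝓞 K) K) (F i)
  have hmap : ∀ (M : Type) [Field M] [Algebra K M] (y : Fin n → M)
      (p : MvPolynomial (Fin n) (𝓞 K)), aeval y (map (algebraMap (𝓞 K) K) p)
        = eval₂ ((algebraMap K M).comp (algebraMap (𝓞 K) K)) y p := by
    intro M _ _ y p
    rw [aeval_def, eval₂_map]
  obtain ⟨L, _, _, hNF, -, v', hv', hv'F, hv'A, hv'W⟩ := descendA FK A
    (rename Sum.inl (map (algebraMap (𝓞 K) K) (G l)) * (X (Sum.inr j1) - X (Sum.inl j1))) v hv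
    (fun i t ht => by
      rw [hmap ℂ]
      exact hvF t ht i) hvA k0 k1 (by
    rw [map_mul, aeval_rename, map_sub, aeval_X, aeval_X]
    simp only [Sum.elim_comp_inl, Sum.elim_inr, Sum.elim_inl]
    rw [hmap ℂ]
    exact mul_ne_zero hk0 (sub_ne_zero.mpr hk1))
  rw [map_mul, aeval_rename, map_sub, aeval_X, aeval_X] at hv'W
  simp only [Sum.elim_comp_inl, Sum.elim_inr, Sum.elim_inl] at hv'W
  have hGL := left_ne_zero_of_mul hv'W
  have hne' := sub_ne_zero.mp (right_ne_zero_of_mul hv'W)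
  obtain ⟨S0, hS0, hint⟩ := integral_pts v' hv'
  obtain ⟨e, Q, hQ⟩ := laurent_terms v' hv'
  obtain ⟨S1, hS1, hun⟩ := exists_places
    (insert (2 : L) (univ.biUnion fun j => (Q j).support.image (Q j).coeff))
  have h2 : (2 : L) ∈ SUnits (S0 ∪ S1) := hun _ Set.subset_union_right _
    (mem_insert_self _ _) two_ne_zero
  have hcf : ∀ j, ∀ l ∈ (Q j).support, (Q j).coeff l ∈ SUnits (S0 ∪ S1) := fun j l hl =>
    hun _ Set.subset_union_right _ (mem_insert_of_mem (mem_biUnion.2 ⟨j, mem_univ j,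
      mem_image_of_mem _ hl⟩)) (Polynomial.mem_support_iff.1 hl)
  have hGLaur : Laur (fun t => aeval (v' t) (map (algebraMap (𝓞 K) K) (G l))) :=
    Laur.eval₂ (algebraMap K L) v' hv' _
  have hzeros : {k : ℕ | aeval (v' (2 ^ k)) (map (algebraMap (𝓞 K) K) (G l)) = 0}.Finite :=
    hGLaur.finite_zeros ⟨2 ^ k0, pow_ne_zero _ two_ne_zero, hGL⟩
  refine ⟨L, inferInstance, hNF, inferInstance, S0 ∪ S1, ∑ j, ((Q j).support.card + 1),
    fun k => v' (2 ^ k), v' 1, {k | aeval (v' (2 ^ k)) (map (algebraMap (𝓞 K) K) (G l)) = 0}ᶜ, j1,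
    hS0.union hS1, hzeros.infinite_compl, fun k hk => ?_, fun k i hi =>
      hv'A i hi _ (pow_ne_zero _ two_ne_zero), fun k j => ?_, fun c => ?_⟩
  · refine ⟨⟨fun j => integer_mono Set.subset_union_left (hint k j), fun i => ?_⟩, fun hmem =>
      hk ?_⟩
    · rw [← hmap L]
      exact hv'F i _ (pow_ne_zero _ two_ne_zero)
    · show aeval (v' (2 ^ k)) (map (algebraMap (𝓞 K) K) (G l)) = 0
      rw [hmap L]
      exact hmem.2 l
  · show v' (2 ^ k) j ∈ _
    rw [hQ _ (pow_ne_zero _ two_ne_zero) j]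
    refine Cx.mono (single_le_sum (f := fun j => (Q j).support.card + 1)
      (fun _ _ => Nat.zero_le _) (mem_univ j)) (Cx.sum SUnits.one SUnits.neg_one _ _
        fun l hl => SUnits.mul (hcf j l hl) (SUnits.zpow ?_ _))
    rw [← zpow_natCast]
    exact SUnits.zpow h2 _
  · have h1 : Laur (fun t => v' t j1 + -c) := (hv' j1).add (Laur.const _)
    have h2 : ∃ t, t ≠ 0 ∧ v' t j1 + -c ≠ 0 := by
      by_contra hcon
      push Not at hcon
      apply hne'
      have h3 := hcon (2 ^ k1) (pow_ne_zero _ two_ne_zero)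
      have h4 := hcon (2 ^ k0) (pow_ne_zero _ two_ne_zero)
      linear_combination h3 - h4
    refine (h1.finite_zeros h2).subset ?_
    intro k hk
    change v' (2 ^ k) j1 + -c = 0
    rw [show v' (2 ^ k) j1 = c from hk]
    ring

section

variable {K : Type} [Field K] {ι κ : Type} {n : ℕ} (σ : K →+* ℂ)
  (F : ι → MvPolynomial (Fin n) (𝓞 K)) (G : κ → MvPolynomial (Fin n) (𝓞 K)) (A : Finset (Fin n))

/-- the arithmetic bound implies the condition on maps from the punctured line -/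
theorem vert_of_arith [NumberField K] (h : ArithBound F G A) : VertGmIn σ F G A := by
  by_contra hcon
  obtain ⟨L, _, _, _, S, m, x, y, I, j, hS, hI, hx1, hx2, hx3, hx4⟩ := exists_points σ F G A hcon
  obtain ⟨C, hC⟩ := h L S hS m
  apply hI
  refine ((NumberField.finite_setOfPred_logHeight₁_le (K := L)
    (C * (1 + ∑ i ∈ A, Height.logHeight₁ (y i)))).biUnion fun c _ => hx4 c).subset ?_
  intro k hk
  refine Set.mem_biUnion (x := x k j) ?_ rfl
  have h1 := hC (fun _ => 1) (fun _ => (S.integer L).one_mem) (x k) (hx1 k hk)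
    fun j => Cx.sub Set.subset_union_right (hx3 k j)
  simp only [Height.logHeight₁_one, sum_const_zero, add_zero] at h1
  rw [sum_congr rfl fun i hi => congrArg _ (hx2 k i hi)] at h1
  exact (single_le_sum (f := fun j => Height.logHeight₁ (x k j))
      (fun j _ => Height.zero_le_logHeight₁ _) (mem_univ j)).trans h1

/-- finiteness -/
theorem finite_of_arith (h : ArithBound F G ∅) : ArithFinite F G := by
  intro L _ _ _ S hS m B
  obtain ⟨C, hC⟩ := h L S hS m
  have h1 : {x : Fin n → L | ∀ i, x i ∈ {c : L | Height.logHeight₁ c ≤ |C| * (1 + m * |B|)}}.Finite :=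
    Set.Finite.pi' fun _ => NumberField.finite_setOfPred_logHeight₁_le (K := L) _
  refine h1.subset ?_
  rintro x ⟨hx, a, ha, hcx⟩ i
  have h2 := hC a (fun i => (ha i).1) x hx hcx
  rw [sum_empty, add_zero] at h2
  have h3 : ∑ i, Height.logHeight₁ (a i) ≤ m * |B| := by
    refine (sum_le_sum fun i _ => (ha i).2.trans (le_abs_self B)).trans (le_of_eq ?_)
    rw [sum_const, card_univ, Fintype.card_fin, nsmul_eq_mul]
  have h4 : 0 ≤ ∑ i, Height.logHeight₁ (a i) := sum_nonneg fun i _ => Height.zero_le_logHeight₁ _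
  calc Height.logHeight₁ (x i) ≤ ∑ j, Height.logHeight₁ (x j) :=
        single_le_sum (f := fun j => Height.logHeight₁ (x j))
          (fun j _ => Height.zero_le_logHeight₁ _) (mem_univ i)
    _ ≤ C * (1 + ∑ i, Height.logHeight₁ (a i)) := h2
    _ ≤ |C| * (1 + ∑ i, Height.logHeight₁ (a i)) :=
        mul_le_mul_of_nonneg_right (le_abs_self C) (by linarith)
    _ ≤ |C| * (1 + m * |B|) := mul_le_mul_of_nonneg_left (by linarith) (abs_nonneg C)

/-- the finiteness implies the condition on maps from the punctured line -/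
theorem vert_of_finite [NumberField K] (h : ArithFinite F G) : VertGmIn σ F G ∅ := by
  by_contra hcon
  obtain ⟨L, _, _, _, S, m, x, y, I, j, hS, hI, hx1, hx2, hx3, hx4⟩ := exists_points σ F G ∅ hcon
  have h1 := h L S hS m 0
  apply hI
  refine (h1.biUnion fun c _ => hx4 (c j)).subset ?_
  intro k hk
  refine Set.mem_biUnion (x := x k) ⟨hx1 k hk, fun _ => 1, fun _ => ⟨(S.integer L).one_mem, ?_⟩,
    fun j => Cx.sub Set.subset_union_right (hx3 k j)⟩ rfl
  rw [Height.logHeight₁_one]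

/-- the entire curve of a map from the punctured line has bounded complexity -/
theorem exp_curve {v : ℂ → Fin n → ℂ} (hv : ∀ j, Laur fun s => v s j) :
    ∃ m, ∀ j, (fun z => v (Complex.exp z) j) ∈ Cx ZeroFree m := by
  obtain ⟨e, Q, hQ⟩ := laurent_terms v hv
  refine ⟨∑ j, ((Q j).support.card + 1), fun j => ?_⟩
  have h1 : (fun z => v (Complex.exp z) j) = fun z => ∑ l ∈ (Q j).support,
      (Q j).coeff l * Complex.exp z ^ ((l : ℤ) - e) :=
    funext fun z => hQ _ (Complex.exp_ne_zero z) j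
  rw [h1]
  refine Cx.mono (single_le_sum (f := fun j => (Q j).support.card + 1)
      (fun _ _ => Nat.zero_le _) (mem_univ j)) (Cx.sum_fun (B := ZeroFree)
        (b := fun l z => (Q j).coeff l * Complex.exp z ^ ((l : ℤ) - e))
        (show (fun _ : ℂ => (1 : ℂ)) ∈ ZeroFree from ⟨differentiable_const _, fun _ => one_ne_zero⟩)
        (show (fun _ : ℂ => (-1 : ℂ)) ∈ ZeroFree from
          ⟨differentiable_const _, fun _ => neg_ne_zero.2 one_ne_zero⟩) _ fun l hl => ⟨?_, fun z =>
        mul_ne_zero (Polynomial.mem_support_iff.1 hl) (zpow_ne_zero _ (Complex.exp_ne_zero z))⟩)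
  refine (differentiable_const _).mul ?_
  intro z
  exact (Complex.differentiable_exp z).zpow (Or.inl (Complex.exp_ne_zero z))

/-- the analytic bound implies the condition on maps from the punctured line -/
theorem vert_of_curve (h : CurveBound σ F G A) : VertGmIn σ F G A := by
  classical
  rintro v ⟨hv1, hv2, hv3, s1, hs1, hne⟩ s0 hs0
  by_contra hG
  obtain ⟨m, hm⟩ := exp_curve hv1
  let f : ℂ → Fin n → ℂ := fun z => v (Complex.exp z)
  have hfd : ∀ j, Differentiable ℂ fun z => f z j := fun j => laur_exp (hv1 j)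
  obtain ⟨C, E, hE, hb⟩ := h m (fun _ _ => 1) (fun _ => differentiable_const _) f
    (differentiable_pi.2 hfd) (fun z => hv2 _ (Complex.exp_ne_zero z)) ⟨Complex.log s0, by
      show v (Complex.exp (Complex.log s0)) ∉ _
      rw [Complex.exp_log hs0]
      exact hG⟩ fun j => ⟨_, Cx.sub Set.subset_union_right (hm j), Filter.EventuallyEq.rfl⟩
  have hA : ∀ r, ∑ i ∈ A, charFn (fun z => f z i) r = ∑ i ∈ A, Real.posLog ‖v 1 i‖ := fun r =>
    Finset.sum_congr rfl fun i hi => charFn_const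
      (fun z => hv3 i hi _ (Complex.exp_ne_zero z)) r
  obtain ⟨j, hj⟩ := Function.ne_iff.1 hne
  obtain ⟨C1, hC1⟩ := prox_lower (hfd j) ⟨Complex.log s1, by
    show v (Complex.exp (Complex.log s1)) j ≠ v (Complex.exp 0) j
    rw [Complex.exp_log hs1, Complex.exp_zero]
    exact hj⟩
  let B : ℝ := C * (1 + ∑ i ∈ A, Real.posLog ‖v 1 i‖)
  obtain ⟨r, hr, hrE⟩ := exists_outside hE (max 1 (Real.exp (B + C1 + 1)))
  have hr1 : 1 ≤ r := (le_max_left _ _).trans hr
  have hr2 : Real.exp (B + C1 + 1) ≤ r := (le_max_right _ _).trans hr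
  have h1 := hb r hr1 hrE
  have h0 : ∑ i : Fin m, charFn (fun _ : ℂ => (1 : ℂ)) r = 0 :=
    sum_eq_zero fun i _ => by rw [charFn_const (c := 1) fun _ => rfl, norm_one, Real.posLog_one]
  rw [hA, h0, add_zero] at h1
  have h2 : charFn (fun z => f z j) r ≤ ∑ j, charFn (fun z => f z j) r :=
    Finset.single_le_sum (f := fun j => charFn (fun z => f z j) r)
      (fun j _ => charFn_nonneg _ r) (Finset.mem_univ j)
  have h3 := hC1 r hr1
  rw [← charFn_prox] at h3
  have h4 : B + C1 + 1 ≤ Real.log r := (Real.le_log_iff_exp_le (by linarith)).2 hr2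
  have h5 : B = C * (1 + ∑ i ∈ A, Real.posLog ‖v 1 i‖) := rfl
  linarith

/-- nonconstant curves -/
theorem unit_of_curve (h : CurveBound σ F G ∅) : UnitCurvesIn σ F G := by
  classical
  intro f hf hfF hne hcx z
  by_contra hG
  choose m g hg hfg using hcx
  obtain ⟨C, E, hE, hb⟩ := h (∑ j, m j) (fun _ _ => 1) (fun _ => differentiable_const _) f
    hf hfF ⟨z, hG⟩ fun j => ⟨g j, Cx.mono (single_le_sum (f := m)
      (fun _ _ => Nat.zero_le _) (mem_univ j)) (Cx.sub Set.subset_union_right (hg j)), hfg j⟩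
  obtain ⟨a, b, hab⟩ := hne
  obtain ⟨j, hj⟩ := Function.ne_iff.1 hab
  have hfj : Differentiable ℂ fun z => f z j := differentiable_pi.1 hf j
  have hz0 : ∃ z, f z j ≠ f 0 j := by
    by_contra hcon
    push Not at hcon
    exact hj ((hcon a).trans (hcon b).symm)
  obtain ⟨C1, hC1⟩ := prox_lower hfj hz0
  obtain ⟨r, hr, hrE⟩ := exists_outside hE (max 1 (Real.exp (C + C1 + 1)))
  have hr1 : 1 ≤ r := (le_max_left _ _).trans hr
  have hr2 : Real.exp (C + C1 + 1) ≤ r := (le_max_right _ _).trans hr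
  have h1 := hb r hr1 hrE
  have h0 : ∑ i : Fin (∑ j, m j), charFn (fun _ : ℂ => (1 : ℂ)) r = 0 :=
    sum_eq_zero fun i _ => by rw [charFn_const (c := 1) fun _ => rfl, norm_one, Real.posLog_one]
  rw [sum_empty, h0, add_zero, add_zero, mul_one] at h1
  have h2 : charFn (fun z => f z j) r ≤ ∑ j, charFn (fun z => f z j) r :=
    Finset.single_le_sum (f := fun j => charFn (fun z => f z j) r)
      (fun j _ => charFn_nonneg _ r) (Finset.mem_univ j)
  have h3 := hC1 r hr1
  rw [← charFn_prox] at h3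
  have h4 : C + C1 + 1 ≤ Real.log r := (Real.le_log_iff_exp_le (by linarith)).2 hr2
  linarith

/-- curves from units include the maps from the punctured line -/
theorem vert_of_unit (h : UnitCurvesIn σ F G) : VertGmIn σ F G ∅ := by
  rintro v ⟨hv1, hv2, hv3, s1, hs1, hne⟩ s0 hs0
  obtain ⟨m, hm⟩ := exp_curve hv1
  have h1 := h (fun z => v (Complex.exp z)) (differentiable_pi.2 fun j => laur_exp (hv1 j))
    (fun z => hv2 _ (Complex.exp_ne_zero z)) ⟨Complex.log s1, 0, by
      show v (Complex.exp (Complex.log s1)) ≠ v (Complex.exp 0)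
      rw [Complex.exp_log hs1, Complex.exp_zero]
      exact hne⟩ (fun j => ⟨m, _, hm j, Filter.EventuallyEq.rfl⟩) (Complex.log s0)
  simp only [Complex.exp_log hs0] at h1
  exact h1

theorem tfae_rel [NumberField K] [Finite ι] :
    List.TFAE [VertGmIn σ F G A, ArithBound F G A, CurveBound σ F G A] := by
  tfae_have 1 → 2 := arith_of_vert σ F G A
  tfae_have 2 → 1 := vert_of_arith σ F G A
  tfae_have 1 → 3 := curve_of_vert σ F G A
  tfae_have 3 → 1 := vert_of_curve σ F G A
  tfae_finish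

theorem tfae_abs [NumberField K] [Finite ι] :
    List.TFAE [GmCurvesIn σ F G, ArithBound F G ∅, ArithFinite F G, CurveBound σ F G ∅,
      UnitCurvesIn σ F G] := by
  rw [← propext (gm_empty σ F G)]
  tfae_have 1 → 2 := arith_of_vert σ F G ∅
  tfae_have 2 → 3 := finite_of_arith F G
  tfae_have 3 → 1 := vert_of_finite σ F G
  tfae_have 1 → 4 := curve_of_vert σ F G ∅
  tfae_have 4 → 5 := unit_of_curve σ F G
  tfae_have 5 → 1 := vert_of_unit σ F G
  tfae_finish

end

end Pool.Agent.W2helper42.CX
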